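import Pool.Agent.Helper20.RL.St5

/-! MODULE PMA of project RL (MP_cb927e_an). -/

set_option autoImplicit false

open MeasureTheory Set Filter Topology
open scoped ENNReal RealInnerProductSpace

namespace Pool.Agent.Helper47.RL

open Pool.Agent.Helper20.RG Pool.Agent.Helper20.RL
open Pool.Agent.Helper68.LM (Pl BB Bd Av HL ft fm DQ)
open Pool.Agent.Helper61.Lacunary (ConditionG LpBounded)

theorem graph_scale_PMA {φ τ : ℝ → ℝ} (h : Graph φ τ) {ℓ : ℝ} (hℓ : 0 < ℓ) :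
    Graph (fun t => φ (ℓ * t) / ℓ) (fun t => τ (ℓ * t)) := by
  refine ⟨fun t => h.1 _, fun t t' htt => ?_⟩
  have h1 := h.2 (ℓ * t) (ℓ * t') (mul_le_mul_of_nonneg_left htt hℓ.le)
  have e1 : φ (ℓ * t') / ℓ - φ (ℓ * t) / ℓ = (φ (ℓ * t') - φ (ℓ * t)) / ℓ := by ring
  constructor
  · show τ (ℓ * t) * (t' - t) ≤ φ (ℓ * t') / ℓ - φ (ℓ * t) / ℓ
    rw [e1, le_div_iff₀ hℓ]
    calc τ (ℓ * t) * (t' - t) * ℓ = τ (ℓ * t) * (ℓ * t' - ℓ * t) := by ring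
      _ ≤ _ := h1.1
  · show φ (ℓ * t') / ℓ - φ (ℓ * t) / ℓ ≤ τ (ℓ * t') * (t' - t)
    rw [e1, div_le_iff₀ hℓ]
    calc φ (ℓ * t') - φ (ℓ * t) ≤ τ (ℓ * t') * (ℓ * t' - ℓ * t) := h1.2
      _ = _ := by ring

theorem gap_mono_PMA {A s σ : ℝ} {τ : ℝ → ℝ} (hA : 0 < A) (hs : 0 < s) (hσ : s ≤ σ)
    (h : Gap A s τ) : Gap A σ τ := by
  intro θ i hi
  refine le_trans (h θ i hi) (ENNReal.ofReal_le_ofReal ?_)
  apply mul_le_mul_of_nonneg_left _ hA.le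
  apply Real.rpow_le_rpow_of_exponent_le
  · exact_mod_cast hi
  · have : 1 / σ ≤ 1 / s := one_div_le_one_div_of_le hs hσ
    linarith

theorem hPMA (hPT : StPT) (hCOV : StCOV) (hCAP : StCAP) (hPMB : StPMB) (hRES : StRES)
    (hFIN : StFIN) : StPMA := by
  intro Ω p s hO hC hB h0 hp3 hp1 hp2 hs hsp hG
  have hne : Ω.Nonempty := ⟨0, h0⟩
  obtain ⟨n, P, u, v, ℓ, φ, τ, hPiece, hcov⟩ := hCOV Ω hO hC hB hne
  -- the exponents
  have hM1 : max s 1 < p := max_lt hsp hp1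
  have hMm : max (max s 1) (p - (p ^ 2 + p - 3) / 6) < p := max_lt hM1 (by linarith)
  obtain ⟨q, hq1, hq2⟩ := exists_between hMm
  have hq3 : p - (p ^ 2 + p - 3) / 6 < q := lt_of_le_of_lt (le_max_right _ _) hq1
  have hq4 : max s 1 < q := lt_of_le_of_lt (le_max_left _ _) hq1
  obtain ⟨σ, hσ1, hσ2⟩ := exists_between hq4
  have hsσ : s < σ := lt_of_le_of_lt (le_max_left _ _) hσ1
  have h1σ : 1 < σ := lt_of_le_of_lt (le_max_right _ _) hσ1
  have hqq : 3 < q ^ 2 + q := by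
    have h1 : 0 < p - q := by linarith
    have h2 : 6 * (p - q) < p ^ 2 + p - 3 := by linarith
    have h3 : (p + q + 1) * (p - q) ≤ 6 * (p - q) :=
      mul_le_mul_of_nonneg_right (by linarith) h1.le
    nlinarith
  refine hFIN Ω p n P u v ℓ φ τ hB (by linarith) hPiece hcov ?_
  intro i hi
  have hpi := hPiece i hi
  refine hRES Ω (P i) (u i) (v i) (ℓ i) (φ i) (τ i) p hpi (by linarith) ?_
  intro c
  obtain ⟨A, hA, hgap⟩ := hCAP Ω s hO hC hB hne hs hG (P i) (u i) (v i) (ℓ i) (φ i) (τ i) hpi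
  have hgr : Graph (fun t => φ i (ℓ i * t) / ℓ i) (fun t => τ i (ℓ i * t)) :=
    graph_scale_PMA hpi.graph hpi.pos
  have hgap' : Gap A σ (fun t => τ i (ℓ i * t)) := gap_mono_PMA hA hs hsσ.le hgap
  exact hPMB _ _ A σ q p c hgr hgap' hA h1σ hσ2 (by linarith) hqq hq2

end Pool.Agent.Helper47.RL
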