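import Pool.Agent.Helper20.RL.St4

/-! MODULE PRD of project RL (MP_cb927e_an): ridges. -/

set_option autoImplicit false

open MeasureTheory Set Filter Topology
open scoped ENNReal RealInnerProductSpace

namespace Pool.Agent.Helper47.RL

open Pool.Agent.Helper20.RG Pool.Agent.Helper20.RL
open Pool.Agent.Helper68.LM (Pl BB Bd Av HL ft fm DQ)

theorem PRD_cont (v : Pl) (i : Fin 2) : Continuous fun y : Pl => (y - v) i := by
  fun_prop

theorem hPRD (hPT : StPT) (hLER : StLER) : StPRD := by
  constructor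
  · intro s v ρ Z B
    refine ⟨?_, ?_, ?_⟩
    · have h1 : Rg s v ρ Z B = ⋃ z ∈ Z, ({y : Pl | |(y - v) 0 - z 0| < ρ} ∩
          {y : Pl | |pr s (y - v) - pr s z| < 3 * (2 : ℝ) ^ (B z)}) := by
        ext y
        simp only [Rg, mem_iUnion, mem_inter_iff, Set.mem_ofPred_eq, exists_prop]
      rw [h1]
      refine isOpen_biUnion fun z _ => IsOpen.inter ?_ ?_
      · exact isOpen_lt (((PRD_cont v 0).sub continuous_const).abs) continuous_const
      · refine isOpen_lt (Continuous.abs (Continuous.sub ?_ continuous_const)) continuous_const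
        unfold pr
        exact (PRD_cont v 1).sub (continuous_const.mul (PRD_cont v 0))
    · rintro y ⟨z, hz, h1, h2⟩ lam hlam
      have hE0 : (E s) 0 = 1 := (hPT.1 1 s).1
      have hE1 : (E s) 1 = s := (hPT.1 1 s).2
      have e0 : (y + lam • E s - v) 0 = (y - v) 0 + lam := by
        simp only [PiLp.sub_apply, PiLp.add_apply, PiLp.smul_apply, smul_eq_mul, hE0]
        ring
      have e1 : (y + lam • E s - v) 1 = (y - v) 1 + lam * s := by
        simp only [PiLp.sub_apply, PiLp.add_apply, PiLp.smul_apply, smul_eq_mul, hE1]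
        ring
      refine ⟨z, hz, ?_, ?_⟩
      · rw [e0]
        have h3 : |(y - v) 0 + lam - z 0| ≤ |(y - v) 0 - z 0| + |lam| := by
          have h4 : (y - v) 0 + lam - z 0 = ((y - v) 0 - z 0) + lam := by ring
          rw [h4]
          exact abs_add_le _ _
        linarith
      · have h3 : pr s (y + lam • E s - v) = pr s (y - v) := by
          unfold pr
          rw [e0, e1]
          ring
        rw [h3]
        exact h2
    · intro hρ z hz
      refine ⟨z, hz, ?_, ?_⟩
      · simpa using hρ
      · have h4 : z + v - v = z := by abel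
        rw [h4, sub_self, abs_zero]
        positivity
  · intro F s θ θ' V Z A B a v hF hFml hθ hθ' hZ hr
    have h1 : Rg s v ((2 : ℝ) ^ a) Z B = (fun y : Pl => y + (-v)) ⁻¹'
        {x : Pl | ∃ z ∈ Z, |x 0 - z 0| < (2 : ℝ) ^ a ∧ |pr s x - pr s z| < 3 * (2 : ℝ) ^ (B z)} := by
      ext y
      simp only [Rg, Set.mem_preimage, Set.mem_ofPred_eq, sub_eq_add_neg]
    rw [h1, measure_preimage_add_right]
    have h2 := hLER F s θ θ' V Z A B a 1 3 hF hFml hθ hθ' hZ hr
    have h3 : ((2 * ((1 : ℕ) : ℝ) + 1) * (2 * ((3 : ℕ) : ℝ) + 1) / θ') = 21 / θ' := by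
      norm_num
    rw [h3] at h2
    refine le_trans (measure_mono ?_) h2
    rintro x ⟨z, hz, h4, h5⟩
    refine ⟨z, hz, ?_, ?_⟩
    · rw [Nat.cast_one, one_mul]
      exact h4.le
    · have h6 : ((3 : ℕ) : ℝ) = 3 := by norm_num
      rw [h6]
      exact h5.le

end Pool.Agent.Helper47.RL
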