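import Pool.Agent.Helper20.RL.St4

/-! MODULE PXR of project RL (MP_cb927e_an): the ridge theorem at `x`, scale `k`. -/

set_option autoImplicit false

open MeasureTheory Set Filter Topology
open scoped ENNReal RealInnerProductSpace

namespace Pool.Agent.Helper47.RL

open Pool.Agent.Helper20.RG Pool.Agent.Helper20.RL
open Pool.Agent.Helper68.LM (Pl BB Bd Av HL ft fm DQ)

theorem PXR_om {u b l : ℕ} (hu : 1 ≤ u) : 4 ≤ om u b l := by
  unfold om
  have h1 : 1 ≤ 2 ^ b := Nat.one_le_two_pow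
  have h2 : 1 ≤ u ^ 2 := Nat.one_le_pow _ _ hu
  have h3 : 4 ≤ 1024 * u ^ 2 + 64 * u * l := by nlinarith [Nat.zero_le (64 * u * l)]
  calc 4 = 1 * 4 := by norm_num
    _ ≤ _ := Nat.mul_le_mul h1 h3

theorem hPXR (hPT : StPT) (hLLM : StLLM) (hLUF : StLUF) (hPRT : StPRT) : StPXR := by
  obtain ⟨C₃, hC₃, H⟩ := hPRT
  refine ⟨C₃, hC₃, ?_⟩
  intro u b l k A σ s c m F D η m₁ hu hb hl hlM hA hS hc hF hD hD0 hη hm1 hm2 hm3
  have hu1 : 1 ≤ u := by omega
  obtain ⟨-, hmono, -, -, -, hlad, hthr⟩ := hLLM u hu1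
  obtain ⟨-, hthr⟩ := hthr η hη
  set T : ℕ := 16 * u * b + l + 1 with hT
  have hTM : T ≤ Mt u + 1 := by omega
  have hkey := H u b (k : ℤ) A σ s (fun j => (2 : ℝ) ^ (k : ℤ) • c j) F D (η / 2) (η / 2) m₁
    (fun j => UU F (s j) (m j) u η T k) (fun j => CU F (s j) (m j) u η T k)
    (fun _ _ => (k : ℤ) + lad u T) (fun j _ => (k : ℤ) - (m j : ℤ)) hu hb (Int.natCast_nonneg k)
    hA hS hF hD hD0 (by linarith) (by linarith) ?_ hm1 hm2 ?_
  · have e1 : 5376 * 2 ^ u * D / (η / 2) = 10752 * 2 ^ u * D / η := by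
      field_simp
      ring
    have e2 : (21 : ℝ) / (η / 2) = 42 / η := by
      field_simp
      ring
    rw [e1, e2] at hkey
    refine le_trans (measure_mono ?_) hkey
    intro x hx
    rw [Set.mem_ofPred_eq] at hx ⊢
    refine le_trans hx ?_
    rw [Nat.cast_le]
    apply Set.ncard_le_ncard
    · rintro j ⟨hj, y, hy, h1, h2⟩
      refine ⟨hj, fun i _ => ⟨y, hy, ?_, ?_⟩⟩
      · refine lt_of_le_of_lt h1 ?_
        have h3 : (3 : ℝ) * (2 : ℝ) ^ ((k : ℤ) - (u : ℤ)) < (2 : ℝ) ^ ((k : ℤ) - (u : ℤ) + 2) := by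
          rw [zpow_add₀ (two_ne_zero)]
          have h4 : (0 : ℝ) < (2 : ℝ) ^ ((k : ℤ) - (u : ℤ)) := by positivity
          have h5 : ((2 : ℝ) ^ (2 : ℤ)) = 4 := by norm_num
          rw [h5]
          linarith
        refine lt_of_lt_of_le h3 ?_
        apply zpow_le_zpow_right₀ (by norm_num)
        have h6 : 4 ≤ om u (b - 1) (16 * u - i) := PXR_om hu1
        omega
      · refine lt_of_le_of_lt h2 ?_
        have h4 : (0 : ℝ) < (2 : ℝ) ^ ((k : ℤ) - (m j : ℤ)) := by positivity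
        show 2 * (2 : ℝ) ^ ((k : ℤ) - (m j : ℤ)) < 3 * (2 : ℝ) ^ ((k : ℤ) - (m j : ℤ))
        linarith
    · exact (Set.finite_lt_nat (2 ^ u)).subset fun j hj => hj.1
  · intro j hj
    obtain ⟨hcj, hmj⟩ := hc j hj
    have hb2 : ∀ i : Fin 2, |(c j) i| ≤ ‖c j‖ → |((2 : ℝ) ^ (k : ℤ) • c j) i| ≤
        (2 : ℝ) ^ ((k : ℤ) + (u : ℤ)) := by
      intro i hi
      rw [PiLp.smul_apply, smul_eq_mul, abs_mul, abs_of_pos (by positivity : (0 : ℝ) < 2 ^ (k : ℤ)),
        zpow_add₀ two_ne_zero]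
      apply mul_le_mul_of_nonneg_left _ (by positivity)
      rw [zpow_natCast]
      exact hi.trans hcj
    refine ⟨hb2 0 (hPT.2.2.1 (c j)).1, hb2 1 (hPT.2.2.1 (c j)).2.1,
      ((hLUF F (s j) (m j) u η T 0 hu1 hη hTM).1 k).1, fun z hz => hz.1, ?_⟩
    intro z hz i hi
    obtain ⟨t, ht, hte⟩ := hlad b l i hb hl hi
    refine ⟨?_, ?_, ?_⟩
    · have h1 : lad u t ≤ lad u T := hmono ht
      rw [hte] at h1
      show (k : ℤ) + _ ≤ (k : ℤ) + lad u T
      linarith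
    · show (k : ℤ) - (m j : ℤ) ≤ (k : ℤ) + _
      omega
    · have h1 := hz.2 t ht
      rw [hte] at h1
      refine le_trans (ENNReal.ofReal_le_ofReal ?_) h1
      apply mul_le_mul_of_nonneg_right _ (by positivity)
      exact (hthr t (ht.trans hTM)).1
  · have e1 : 5376 * 2 ^ u * D / (η / 2) = 10752 * 2 ^ u * D / η := by
      field_simp
      ring
    rw [e1]
    exact hm3

end Pool.Agent.Helper47.RL
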