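import Pool.Agent.Helper47.RL.Open

/-!
# Project RG (MP_16b052_ag), part L1

`rigid_of_H2`: a finite-dimensional commutative algebra `A` over an algebraically closed field of
any characteristic is rigid if every symmetric 2-cocycle `A × A → A` is a coboundary.
-/

namespace Helper47.RL

open Module Helper47.Rig MvPolynomial

universe u v w

variable {k : Type u} [Field k] {A : Type v} [CommRing A] [Algebra k A] {r : ℕ}

/-- the table of `A` in the basis `b` -/
noncomputable def tabOf (b : Basis (Fin r) k A) : Tab k r :=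
  ⟨fun i j => b.repr (b i * b j), b.repr 1⟩

lemma mu_tabOf (b : Basis (Fin r) k A) (x y : A) :
    mu (tabOf b) (b.repr x) (b.repr y) = b.repr (x * y) := by
  have h : (mu (tabOf b)).compl₁₂ (b.equivFun : A →ₗ[k] (Fin r → k)) (b.equivFun : A →ₗ[k] _) =
      (LinearMap.mul k A).compr₂ (b.equivFun : A →ₗ[k] (Fin r → k)) := by
    apply b.ext
    intro i
    apply b.ext
    intro j
    show mu (tabOf b) (b.equivFun (b i)) (b.equivFun (b j)) = b.equivFun (b i * b j)
    have e : ∀ i, b.equivFun (b i) = Pi.single i 1 := by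
      intro i
      funext l
      rw [Basis.equivFun_self, Pi.single_apply]
      simp [eq_comm]
    rw [e, e, mu_single]
    rfl
  exact congrArg (fun f => f x y) h

lemma isAlg_of_isAlgR {p : Tab k r} (hp : IsAlgR p) : IsAlg p := ⟨hp.comm, hp.assoc, hp.unit⟩

lemma isAlg_tabOf (b : Basis (Fin r) k A) : IsAlg (tabOf b) := by
  apply isAlg_of_isAlgR
  have hs : ∀ x : Fin r → k, ∃ a : A, x = b.repr a := by
    intro x
    refine ⟨b.equivFun.symm x, ?_⟩
    exact (b.equivFun.apply_symm_apply x).symm
  apply isAlgR_of
  · intro x y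
    obtain ⟨a, rfl⟩ := hs x
    obtain ⟨a', rfl⟩ := hs y
    rw [mu_tabOf, mu_tabOf, mul_comm]
  · intro x y z
    obtain ⟨a, rfl⟩ := hs x
    obtain ⟨a', rfl⟩ := hs y
    obtain ⟨a'', rfl⟩ := hs z
    rw [mu_tabOf, mu_tabOf, mu_tabOf, mu_tabOf, mul_assoc]
  · intro x
    obtain ⟨a, rfl⟩ := hs x
    show mu (tabOf b) (b.repr 1) (b.repr a) = b.repr a
    rw [mu_tabOf, one_mul]

lemma represents_iff (b : Basis (Fin r) k A) (p : Tab k r) :
    Represents A p ↔ ∃ g g' : Matrix (Fin r) (Fin r) k, IsIso g g' p (tabOf b) := by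
  constructor
  · rintro ⟨b', hb1, hb2⟩
    refine ⟨b.toMatrix b', b'.toMatrix b, ?_, ?_, ?_⟩
    · rw [Basis.toMatrix_mul_toMatrix, Basis.toMatrix_self]
    · intro i j
      have e : ∀ i, (b.toMatrix b').mulVec (Pi.single i 1) = b.repr (b' i) := by
        intro i
        rw [Matrix.mulVec_single_one]
        rfl
      rw [e, e, mu_tabOf, hb1]
      funext l
      rw [map_sum, Finsupp.finsetSum_apply, Matrix.mulVec, dotProduct]
      apply Finset.sum_congr rfl
      intro m _
      rw [map_smul, Finsupp.smul_apply, smul_eq_mul, mul_comm]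
      rfl
    · show (b.toMatrix b').mulVec p.one = b.repr 1
      rw [hb2]
      funext l
      rw [map_sum, Finsupp.finsetSum_apply, Matrix.mulVec, dotProduct]
      apply Finset.sum_congr rfl
      intro m _
      rw [map_smul, Finsupp.smul_apply, smul_eq_mul, mul_comm]
      rfl
  · rintro ⟨g, g', h⟩
    have hg : g * g' = 1 := h.inv
    have hg' : g' * g = 1 := mul_eq_one_comm.mp hg
    set eq : (Fin r → k) ≃ₗ[k] A := (Matrix.toLin'OfInv hg' hg).trans b.equivFun.symm with heq
    have heq1 : ∀ x, eq x = b.equivFun.symm (g.mulVec x) := fun x => rfl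
    have heq2 : ∀ x, b.repr (eq x) = g.mulVec x := by
      intro x
      have := b.equivFun.apply_symm_apply (g.mulVec x)
      rw [heq1]
      exact this
    set b' : Basis (Fin r) k A := (Pi.basisFun k (Fin r)).map eq with hb'
    have hb'1 : ∀ i, b' i = eq (Pi.single i 1) := by
      intro i
      rw [hb', Basis.map_apply, Pi.basisFun_apply]
    have hsum : ∀ x : Fin r → k, eq x = ∑ l, x l • b' l := by
      intro x
      have h1 : x = ∑ l, x l • (Pi.single l 1 : Fin r → k) := by
        have := (Pi.basisFun k (Fin r)).sum_repr x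
        simpa using this.symm
      conv_lhs => rw [h1]
      rw [map_sum]
      apply Finset.sum_congr rfl
      intro l _
      rw [map_smul, hb'1]
    refine ⟨b', ?_, ?_⟩
    · intro i j
      rw [← hsum]
      apply b.equivFun.injective
      have e1 : b.equivFun (b' i * b' j) = (b.repr (b' i * b' j) : Fin r → k) := rfl
      have e2 : b.equivFun (eq (p.mul i j)) = (b.repr (eq (p.mul i j)) : Fin r → k) := rfl
      rw [e1, e2, ← mu_tabOf, heq2, hb'1, hb'1, heq2, heq2, h.mul]
    · rw [← hsum]
      apply b.equivFun.injective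
      have e1 : b.equivFun (1 : A) = (b.repr 1 : Fin r → k) := rfl
      have e2 : b.equivFun (eq p.one) = (b.repr (eq p.one) : Fin r → k) := rfl
      rw [e1, e2, heq2, h.one]
      rfl

lemma h2Z_tabOf (b : Basis (Fin r) k A)
    (H : ∀ f : A →ₗ[k] A →ₗ[k] A, (∀ a b, f a b = f b a) →
      (∀ a b d, a * f b d - f (a * b) d + f a (b * d) - f a b * d = 0) →
      ∃ h : A →ₗ[k] A, ∀ a b, f a b = a * h b + b * h a - h (a * b)) :
    H2Z (tabOf b).mul := by
  intro ω hω
  set f : A →ₗ[k] A →ₗ[k] A := b.constr k fun i => b.constr k fun j => ∑ n, ω i j n • b n with hf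
  have hfb : ∀ i j, f (b i) (b j) = ∑ n, ω i j n • b n := by
    intro i j
    rw [hf, Basis.constr_basis, Basis.constr_basis]
  have hmul : ∀ i j, b i * b j = ∑ n, (tabOf b).mul i j n • b n := fun i j =>
    (b.sum_repr (b i * b j)).symm
  have hsymm : ∀ x y, f x y = f y x := by
    intro x y
    have : f = f.flip := by
      apply b.ext
      intro i
      apply b.ext
      intro j
      rw [LinearMap.flip_apply, hfb, hfb]
      apply Finset.sum_congr rfl
      intro n _
      rw [hω.symm]
    exact congrArg (fun g => g x y) this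
  have hcocb : ∀ i j l, b i * f (b j) (b l) - f (b i * b j) (b l) + f (b i) (b j * b l) -
      f (b i) (b j) * b l = 0 := by
    intro i j l
    have t1 : b i * f (b j) (b l) = ∑ n, (∑ m, ω j l m * (tabOf b).mul i m n) • b n := by
      rw [hfb, Finset.mul_sum]
      have : ∀ m, b i * (ω j l m • b m) = ∑ n, (ω j l m * (tabOf b).mul i m n) • b n := by
        intro m
        rw [mul_smul_comm, hmul, Finset.smul_sum]
        apply Finset.sum_congr rfl
        intro n _
        rw [smul_smul]
      rw [Finset.sum_congr rfl (fun m _ => this m), Finset.sum_comm]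
      apply Finset.sum_congr rfl
      intro n _
      rw [Finset.sum_smul]
    have t2 : f (b i * b j) (b l) = ∑ n, (∑ m, (tabOf b).mul i j m * ω m l n) • b n := by
      rw [hmul, map_sum, LinearMap.sum_apply]
      have : ∀ m, (f ((tabOf b).mul i j m • b m)) (b l) =
          ∑ n, ((tabOf b).mul i j m * ω m l n) • b n := by
        intro m
        rw [map_smul, LinearMap.smul_apply, hfb, Finset.smul_sum]
        apply Finset.sum_congr rfl
        intro n _
        rw [smul_smul]
      rw [Finset.sum_congr rfl (fun m _ => this m), Finset.sum_comm]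
      apply Finset.sum_congr rfl
      intro n _
      rw [Finset.sum_smul]
    have t3 : f (b i) (b j * b l) = ∑ n, (∑ m, (tabOf b).mul j l m * ω i m n) • b n := by
      rw [hmul, map_sum]
      have : ∀ m, (f (b i)) ((tabOf b).mul j l m • b m) =
          ∑ n, ((tabOf b).mul j l m * ω i m n) • b n := by
        intro m
        rw [map_smul, hfb, Finset.smul_sum]
        apply Finset.sum_congr rfl
        intro n _
        rw [smul_smul]
      rw [Finset.sum_congr rfl (fun m _ => this m), Finset.sum_comm]
      apply Finset.sum_congr rfl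
      intro n _
      rw [Finset.sum_smul]
    have t4 : f (b i) (b j) * b l = ∑ n, (∑ m, ω i j m * (tabOf b).mul m l n) • b n := by
      rw [hfb, Finset.sum_mul]
      have : ∀ m, (ω i j m • b m) * b l = ∑ n, (ω i j m * (tabOf b).mul m l n) • b n := by
        intro m
        rw [smul_mul_assoc, hmul, Finset.smul_sum]
        apply Finset.sum_congr rfl
        intro n _
        rw [smul_smul]
      rw [Finset.sum_congr rfl (fun m _ => this m), Finset.sum_comm]
      apply Finset.sum_congr rfl
      intro n _
      rw [Finset.sum_smul]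
    rw [t1, t2, t3, t4, ← Finset.sum_sub_distrib, ← Finset.sum_add_distrib,
      ← Finset.sum_sub_distrib]
    apply Finset.sum_eq_zero
    intro n _
    rw [← sub_smul, ← add_smul, ← sub_smul]
    have := hω.coc i j l n
    simp only [smul_eq_mul] at this
    rw [Finset.sum_add_distrib, Finset.sum_add_distrib] at this
    have e1 : ∑ m, (tabOf b).mul m l n * ω i j m = ∑ m, ω i j m * (tabOf b).mul m l n :=
      Finset.sum_congr rfl (fun m _ => mul_comm _ _)
    have e2 : ∑ m, (tabOf b).mul i m n * ω j l m = ∑ m, ω j l m * (tabOf b).mul i m n :=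
      Finset.sum_congr rfl (fun m _ => mul_comm _ _)
    rw [e1, e2] at this
    have e3 : ∑ m, ω j l m * (tabOf b).mul i m n - ∑ m, (tabOf b).mul i j m * ω m l n +
        ∑ m, (tabOf b).mul j l m * ω i m n - ∑ m, ω i j m * (tabOf b).mul m l n = 0 := by
      linear_combination -this
    rw [e3, zero_smul]
  have hcoc : ∀ x y z, x * f y z - f (x * y) z + f x (y * z) - f x y * z = 0 := by
    have s1 : ∀ i j z, b i * f (b j) z - f (b i * b j) z + f (b i) (b j * z) -
        f (b i) (b j) * z = 0 := by
      intro i j z
      have : (LinearMap.mul k A (b i)).comp (f (b j)) - f (b i * b j) +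
          (f (b i)).comp (LinearMap.mul k A (b j)) - LinearMap.mul k A (f (b i) (b j)) = 0 := by
        apply b.ext
        intro l
        exact hcocb i j l
      exact congrArg (fun g => g z) this
    have s2 : ∀ i y z, b i * f y z - f (b i * y) z + f (b i) (y * z) -
        f (b i) y * z = 0 := by
      intro i y z
      have : (LinearMap.mul k A (b i)).comp (f.flip z) - (f.flip z).comp (LinearMap.mul k A (b i)) +
          (f (b i)).comp ((LinearMap.mul k A).flip z) -
          ((LinearMap.mul k A).flip z).comp (f (b i)) = 0 := by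
        apply b.ext
        intro l
        exact s1 i l z
      exact congrArg (fun g => g y) this
    intro x y z
    have : (LinearMap.mul k A).flip (f y z) - (f.flip z).comp ((LinearMap.mul k A).flip y) +
        (f.flip (y * z)) - ((LinearMap.mul k A).flip z).comp (f.flip y) = 0 := by
      apply b.ext
      intro l
      exact s2 l y z
    exact congrArg (fun g => g x) this
  obtain ⟨h, hh⟩ := H f hsymm hcoc
  refine ⟨fun i m => b.repr (h (b i)) m, ?_⟩
  funext i j n
  have h1 := congrArg (fun x => b.repr x n) (hh (b i) (b j))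
  have hhb : ∀ i, h (b i) = ∑ m, b.repr (h (b i)) m • b m := fun i => (b.sum_repr _).symm
  have c1 : b.repr (f (b i) (b j)) n = ω i j n := by
    rw [hfb, b.repr_sum_self]
  have c2 : b.repr (b i * h (b j)) n = ∑ m, (tabOf b).mul i m n * b.repr (h (b j)) m := by
    rw [hhb j, Finset.mul_sum, map_sum, Finsupp.finsetSum_apply]
    apply Finset.sum_congr rfl
    intro m _
    rw [mul_smul_comm, map_smul, Finsupp.smul_apply, smul_eq_mul, mul_comm, ← hhb]
    rfl
  have c3 : b.repr (b j * h (b i)) n = ∑ m, (tabOf b).mul m j n * b.repr (h (b i)) m := by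
    rw [hhb i, Finset.mul_sum, map_sum, Finsupp.finsetSum_apply]
    apply Finset.sum_congr rfl
    intro m _
    rw [mul_smul_comm, map_smul, Finsupp.smul_apply, smul_eq_mul, mul_comm, ← hhb,
      mul_comm (b j) (b m)]
    rfl
  have c4 : b.repr (h (b i * b j)) n = ∑ m, (tabOf b).mul i j m * b.repr (h (b m)) n := by
    rw [hmul, map_sum, map_sum, Finsupp.finsetSum_apply]
    apply Finset.sum_congr rfl
    intro m _
    rw [map_smul, map_smul, Finsupp.smul_apply, smul_eq_mul]
  simp only [map_sub, map_add, Finsupp.sub_apply, Finsupp.add_apply] at h1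
  rw [c1, c2, c3, c4] at h1
  rw [h1]
  unfold dl
  simp only [smul_eq_mul]
  rw [Finset.sum_sub_distrib, Finset.sum_add_distrib]
  ring

/-- **L1.** If every symmetric 2-cocycle `A × A → A` is a coboundary then `A` is rigid. -/
theorem rigid_of_H2 (k : Type u) [Field k] [IsAlgClosed k] (A : Type v) [CommRing A] [Algebra k A]
    [Module.Finite k A]
    (H : ∀ f : A →ₗ[k] A →ₗ[k] A, (∀ a b, f a b = f b a) →
      (∀ a b d, a * f b d - f (a * b) d + f a (b * d) - f a b * d = 0) →
      ∃ h : A →ₗ[k] A, ∀ a b, f a b = a * h b + b * h a - h (a * b)) : Rigid k A := by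
  set b : Basis (Fin (finrank k A)) k A := finBasis k A with hb
  obtain ⟨S, hS⟩ := open_orbit (isAlg_tabOf b) (h2Z_tabOf b H)
  refine ⟨S, ?_⟩
  intro p hp
  rw [represents_iff b p]
  exact hS p hp

end Helper47.RL
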