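import Pool.Agent.Helper47.RL.Smooth

/-!
# Project RG (MP_16b052_ag), part L1: the orbit algebra is formally smooth, the orbit is open
-/

namespace Helper47.RL

open Module Helper47.Rig MvPolynomial

universe u v w

lemma trans_of_isIso {C : Type u} [CommRing C] {r : ℕ} {g g' : Matrix (Fin r) (Fin r) C}
    {p q : Tab C r} (h : IsIso g g' p q) (i j l : Fin r) :
    (trans g g' p).mul i j l = q.mul i j l := by
  show g.mulVec (mu p (g'.mulVec (Pi.single i 1)) (g'.mulVec (Pi.single j 1))) l = _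
  rw [mul_all h.mul, Matrix.mulVec_mulVec, Matrix.mulVec_mulVec, h.inv, Matrix.one_mulVec,
    Matrix.one_mulVec, mu_single]

variable {k : Type u} [Field k] {r : ℕ}

lemma exists_iso_lift {c : Tab k r} (hc : IsAlg c) (H : H2Z c.mul) {C : Type v} [CommRing C]
    [Algebra k C] (I : Ideal C) (hI : I ^ 2 = ⊥) (p : Tab C r) (hp : IsAlgR p)
    (gb gb' : Matrix (Fin r) (Fin r) (C ⧸ I))
    (hb : IsIso gb gb' (tmap (Ideal.Quotient.mk I) p) (tmap (algebraMap k (C ⧸ I)) c)) :
    ∃ g g' : Matrix (Fin r) (Fin r) C, g.map (Ideal.Quotient.mk I) = gb ∧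
      g'.map (Ideal.Quotient.mk I) = gb' ∧ IsIso g g' p (tmap (algebraMap k C) c) := by
  set π := Ideal.Quotient.mk I with hπ
  have hz : ∀ x ∈ I, ∀ y ∈ I, x * y = 0 := by
    intro x hx y hy
    have h1 : x * y ∈ I ^ 2 := by
      rw [pow_two]
      exact Ideal.mul_mem_mul hx hy
    rw [hI] at h1
    exact (Submodule.mem_bot C).1 h1
  choose lft hlft using (Ideal.Quotient.mk_surjective (I := I))
  set G : Matrix (Fin r) (Fin r) C := Matrix.of fun i j => lft (gb i j) with hG
  set G0 : Matrix (Fin r) (Fin r) C := Matrix.of fun i j => lft (gb' i j) with hG0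
  have hGm : G.map π = gb := by
    ext i j
    exact hlft (gb i j)
  have hG0m : G0.map π = gb' := by
    ext i j
    exact hlft (gb' i j)
  set N : Matrix (Fin r) (Fin r) C := G * G0 - 1 with hN
  have hNm : N.map π = 0 := by
    ext i j
    have : (G * G0).map π = 1 := by rw [Matrix.map_mul, hGm, hG0m, hb.inv]
    have h2 := congrFun (congrFun this i) j
    rw [Matrix.map_apply] at h2
    rw [Matrix.map_apply, hN, Matrix.sub_apply, map_sub, h2, Matrix.one_apply, Matrix.one_apply]
    split_ifs <;> simp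
  have hNI : ∀ i j, N i j ∈ I := by
    intro i j
    rw [← Ideal.Quotient.eq_zero_iff_mem]
    exact congrFun (congrFun hNm i) j
  have hNN : N * N = 0 := by
    ext i j
    rw [Matrix.mul_apply]
    apply Finset.sum_eq_zero
    intro m _
    exact hz _ (hNI i m) _ (hNI m j)
  have hGG : G * G0 = 1 + N := by rw [hN]; abel
  set G' : Matrix (Fin r) (Fin r) C := G0 * (1 - N) with hG'
  have hinv : G * G' = 1 := by
    rw [hG', ← Matrix.mul_assoc, hGG, Matrix.mul_sub, Matrix.mul_one, Matrix.add_mul,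
      Matrix.one_mul, hNN]
    simp
  have hG'm : G'.map π = gb' := by
    rw [hG', Matrix.map_mul, Matrix.map_sub _ (map_sub π), hNm, hG0m,
      Matrix.map_one _ (map_zero π) (map_one π), sub_zero, Matrix.mul_one]
  have hq : IsAlgR (trans G G' p) := isAlgR_trans hinv hp
  have hmul : ∀ i j l, (trans G G' p).mul i j l - algebraMap k C (c.mul i j l) ∈ I := by
    intro i j l
    rw [← Ideal.Quotient.eq_zero_iff_mem, map_sub, sub_eq_zero]
    have h1 : π ((trans G G' p).mul i j l) = (tmap π (trans G G' p)).mul i j l := rfl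
    rw [h1, map_trans, hGm, hG'm, trans_of_isIso hb]
    rfl
  obtain ⟨E, hE, hiso⟩ := inf_step hc H I hI _ hq hmul
  have hEm : E.map π = 0 := by
    ext i j
    exact Ideal.Quotient.eq_zero_iff_mem.2 (hE i j)
  refine ⟨(1 + E) * G, G' * (1 - E), ?_, ?_, isIso_trans (isIso_transport hinv p) hiso⟩
  · rw [Matrix.map_mul, Matrix.map_add _ (map_add π), hEm, hGm,
      Matrix.map_one _ (map_zero π) (map_one π), add_zero, Matrix.one_mul]
  · rw [Matrix.map_mul, Matrix.map_sub _ (map_sub π), hEm, hG'm,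
      Matrix.map_one _ (map_zero π) (map_one π), sub_zero, Matrix.mul_one]

theorem formallySmooth_Bc {c : Tab k r} (hc : IsAlg c) (H : H2Z c.mul) :
    Algebra.FormallySmooth (R0 k r) (Bc c) := by
  apply Algebra.FormallySmooth.of_comp_surjective
  intro C _ _ I hI f
  letI : Algebra k C := ((algebraMap (R0 k r) C).comp (algebraMap k (R0 k r))).toAlgebra
  haveI : IsScalarTower k (R0 k r) C := IsScalarTower.of_algebraMap_eq' rfl
  set F : MvPolynomial (Tg r) (R0 k r) →ₐ[R0 k r] C ⧸ I := f.comp (mkB c) with hF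
  have hker : JIso c ≤ RingHom.ker (F : MvPolynomial (Tg r) (R0 k r) →+* C ⧸ I) := by
    intro x hx
    rw [← ker_mkB c] at hx
    show f (mkB c x) = 0
    have : mkB c x = 0 := hx
    rw [this, map_zero]
  rw [jIso_le_iff] at hker
  have hp : IsAlgR (tmap (algebraMap (R0 k r) C) (pR k r)) := by
    have h1 := isAlgR_pR (k := k) (r := r)
    unfold pR at h1 ⊢
    rw [tmap_tmap]
    have h2 := (iAlg_le_iff (k := k) (r := r)
      ((algebraMap (R0 k r) C).comp (mkR k r : MvPolynomial (Sg r) k →+* R0 k r))).1 (by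
        rw [← ker_mkR k r]
        intro x hx
        have : (mkR k r : MvPolynomial (Sg r) k →+* R0 k r) x = 0 := hx
        show algebraMap (R0 k r) C ((mkR k r : MvPolynomial (Sg r) k →+* R0 k r) x) = 0
        rw [this, map_zero])
    exact h2
  have e1 : tmap (F : MvPolynomial (Tg r) (R0 k r) →+* C ⧸ I) (tmap MvPolynomial.C (pR k r)) =
      tmap (Ideal.Quotient.mk I) (tmap (algebraMap (R0 k r) C) (pR k r)) := by
    rw [tmap_tmap, tmap_tmap]
    congr 1
    funext x
    exact F.commutes x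
  have e2 : tmap (F : MvPolynomial (Tg r) (R0 k r) →+* C ⧸ I)
      (tmap (algebraMap k (MvPolynomial (Tg r) (R0 k r))) c) =
      tmap (algebraMap k (C ⧸ I)) c := by
    rw [tmap_tmap]
    congr 1
    funext x
    show F (algebraMap k (MvPolynomial (Tg r) (R0 k r)) x) = _
    rw [IsScalarTower.algebraMap_apply k (R0 k r) (MvPolynomial (Tg r) (R0 k r)), F.commutes]
    rfl
  rw [e1, e2] at hker
  obtain ⟨g, g', hg, hg', hiso⟩ := exists_iso_lift hc H I hI _ hp _ _ hker
  set φ : MvPolynomial (Tg r) (R0 k r) →ₐ[R0 k r] C :=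
    aeval (Sum.elim (fun x => g x.1 x.2) (fun x => g' x.1 x.2)) with hφ
  have hφ1 : (gX (R0 k r) r).map (φ : MvPolynomial (Tg r) (R0 k r) →+* C) = g := by
    ext i j
    show φ (X (Sum.inl (i, j))) = g i j
    rw [hφ, aeval_X]
    rfl
  have hφ2 : (gX' (R0 k r) r).map (φ : MvPolynomial (Tg r) (R0 k r) →+* C) = g' := by
    ext i j
    show φ (X (Sum.inr (i, j))) = g' i j
    rw [hφ, aeval_X]
    rfl
  have hφk : JIso c ≤ RingHom.ker (φ : MvPolynomial (Tg r) (R0 k r) →+* C) := by
    rw [jIso_le_iff, hφ1, hφ2]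
    have e3 : tmap (φ : MvPolynomial (Tg r) (R0 k r) →+* C) (tmap MvPolynomial.C (pR k r)) =
        tmap (algebraMap (R0 k r) C) (pR k r) := by
      rw [tmap_tmap]
      congr 1
      funext x
      exact φ.commutes x
    have e4 : tmap (φ : MvPolynomial (Tg r) (R0 k r) →+* C)
        (tmap (algebraMap k (MvPolynomial (Tg r) (R0 k r))) c) =
        tmap (algebraMap k C) c := by
      rw [tmap_tmap]
      congr 1
      funext x
      show φ (algebraMap k (MvPolynomial (Tg r) (R0 k r)) x) = _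
      rw [IsScalarTower.algebraMap_apply k (R0 k r) (MvPolynomial (Tg r) (R0 k r)), φ.commutes]
      rfl
    rw [e3, e4]
    exact hiso
  obtain ⟨ψ, hψ⟩ := exists_liftB c φ hφk
  refine ⟨ψ, ?_⟩
  have key : ((Ideal.Quotient.mkₐ (R0 k r) I).comp ψ).comp (mkB c) = f.comp (mkB c) := by
    rw [AlgHom.comp_assoc, hψ, ← hF]
    apply MvPolynomial.algHom_ext
    rintro (⟨i, j⟩ | ⟨i, j⟩)
    · show Ideal.Quotient.mk I (φ (X (Sum.inl (i, j)))) = F (X (Sum.inl (i, j)))
      have h1 := congrFun (congrFun hg i) j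
      have h2 := congrFun (congrFun hφ1 i) j
      rw [Matrix.map_apply] at h1
      rw [← h2] at h1
      exact h1
    · show Ideal.Quotient.mk I (φ (X (Sum.inr (i, j)))) = F (X (Sum.inr (i, j)))
      have h1 := congrFun (congrFun hg' i) j
      have h2 := congrFun (congrFun hφ2 i) j
      rw [Matrix.map_apply] at h1
      rw [← h2] at h1
      exact h1
  apply AlgHom.ext
  intro x
  obtain ⟨y, rfl⟩ := mkB_surjective c x
  exact congrArg (fun F => F y) key

theorem isOpen_range {c : Tab k r} (hc : IsAlg c) (H : H2Z c.mul) :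
    IsOpen (Set.range (PrimeSpectrum.comap (algebraMap (R0 k r) (Bc c)))) := by
  haveI := formallySmooth_Bc hc H
  haveI : Algebra.Smooth (R0 k r) (Bc c) := ⟨inferInstance, inferInstance⟩
  haveI : Module.Flat (R0 k r) (Bc c) := Algebra.Smooth.flat (R0 k r) (Bc c)
  exact (PrimeSpectrum.isOpenMap_comap_of_hasGoingDown_of_finitePresentation
    (R := R0 k r) (S := Bc c)).isOpen_range

end Helper47.RL
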