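import Pool.Agent.Helper47.RL.Vec

/-!
# Project RG (MP_16b052_ag), part L1: symmetric 2-cocycles with values in a vector space
-/

namespace Helper47.RL

open Module Helper47.Rig

universe u v w

variable {k : Type u} [Field k] {r : ℕ}

/-- the coboundary of `h` (values in a `k`-module) for the structure constants `c` -/
def dl {M : Type v} [AddCommGroup M] [Module k M] (c : Fin r → Fin r → Fin r → k)
    (h : Fin r → Fin r → M) : Fin r → Fin r → Fin r → M :=
  fun i j n => ∑ m, (c m j n • h i m + c i m n • h j m - c i j m • h m n)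

/-- symmetric 2-cocycles with values in a `k`-module for the structure constants `c` -/
structure IsZ {M : Type v} [AddCommGroup M] [Module k M] (c : Fin r → Fin r → Fin r → k)
    (ω : Fin r → Fin r → Fin r → M) : Prop where
  symm : ∀ i j l, ω i j l = ω j i l
  coc : ∀ i j l n, ∑ m, (c i j m • ω m l n + c m l n • ω i j m) =
    ∑ m, (c j l m • ω i m n + c i m n • ω j l m)

/-- every symmetric 2-cocycle with values in `k` is a coboundary -/
def H2Z (c : Fin r → Fin r → Fin r → k) : Prop :=
  ∀ ω : Fin r → Fin r → Fin r → k, IsZ c ω → ∃ h : Fin r → Fin r → k, dl c h = ω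

/-- the coboundary as a linear map -/
def dlL (c : Fin r → Fin r → Fin r → k) :
    (Fin r → Fin r → k) →ₗ[k] (Fin r → Fin r → Fin r → k) where
  toFun := dl c
  map_add' := by
    intro x y
    funext i j n
    simp only [dl, Pi.add_apply, smul_add]
    rw [← Finset.sum_add_distrib]
    apply Finset.sum_congr rfl
    intro m _
    abel
  map_smul' := by
    intro a x
    funext i j n
    simp only [dl, Pi.smul_apply, RingHom.id_apply]
    rw [Finset.smul_sum]
    apply Finset.sum_congr rfl
    intro m _
    simp only [smul_eq_mul]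
    ring

lemma exists_section (c : Fin r → Fin r → Fin r → k) :
    ∃ s : (Fin r → Fin r → Fin r → k) →ₗ[k] (Fin r → Fin r → k),
      ∀ h, dl c (s (dl c h)) = dl c h := by
  obtain ⟨s0, hs0⟩ := LinearMap.exists_rightInverse_of_surjective (dlL c).rangeRestrict
    (LinearMap.range_rangeRestrict _)
  obtain ⟨s, hs⟩ := LinearMap.exists_extend s0
  refine ⟨s, ?_⟩
  intro h
  have h1 : s (dl c h) = s0 ⟨dl c h, ⟨h, rfl⟩⟩ := by
    rw [← hs]
    rfl
  rw [h1]
  have h2 := congrArg (fun f => ((f ⟨dl c h, ⟨h, rfl⟩⟩ : LinearMap.range (dlL c)) :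
    Fin r → Fin r → Fin r → k)) hs0
  exact h2

lemma decomp (ω : Fin r → Fin r → Fin r → k) :
    ω = ∑ a, ∑ b, ∑ d, ω a b d • (Pi.single a (Pi.single b (Pi.single d 1)) :
      Fin r → Fin r → Fin r → k) := by
  classical
  funext i j n
  rw [Finset.sum_apply, Finset.sum_apply, Finset.sum_apply]
  rw [Finset.sum_eq_single i]
  · rw [Finset.sum_apply, Finset.sum_apply, Finset.sum_apply, Finset.sum_eq_single j]
    · rw [Finset.sum_apply, Finset.sum_apply, Finset.sum_apply, Finset.sum_eq_single n]
      · simp
      · intro b _ hb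
        simp [hb]
      · simp
    · intro b _ hb
      rw [Finset.sum_apply, Finset.sum_apply, Finset.sum_apply]
      apply Finset.sum_eq_zero
      intro d _
      simp [hb.symm]
    · simp
  · intro b _ hb
    rw [Finset.sum_apply, Finset.sum_apply, Finset.sum_apply]
    apply Finset.sum_eq_zero
    intro d _
    rw [Finset.sum_apply, Finset.sum_apply, Finset.sum_apply]
    apply Finset.sum_eq_zero
    intro e _
    simp [hb.symm]
  · simp

theorem h2_module {c : Fin r → Fin r → Fin r → k} (H : H2Z c) {M : Type v} [AddCommGroup M]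
    [Module k M] (ω : Fin r → Fin r → Fin r → M) (hω : IsZ c ω) :
    ∃ h : Fin r → Fin r → M, dl c h = ω := by
  classical
  obtain ⟨s, hs⟩ := exists_section c
  set h : Fin r → Fin r → M := fun i m => ∑ a, ∑ b, ∑ d,
    s (Pi.single a (Pi.single b (Pi.single d 1))) i m • ω a b d with hh
  refine ⟨h, ?_⟩
  funext i j n
  rw [← sub_eq_zero]
  rw [← Module.forall_dual_apply_eq_zero_iff k]
  intro lam
  rw [map_sub, sub_eq_zero]
  have h1 : (fun i m => lam (h i m)) = s (fun a b d => lam (ω a b d)) := by
    funext i m
    conv_rhs => rw [decomp (fun a b d => lam (ω a b d))]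
    rw [hh]
    simp only [map_sum, map_smul, Finset.sum_apply, Pi.smul_apply, smul_eq_mul]
    apply Finset.sum_congr rfl
    intro a _
    apply Finset.sum_congr rfl
    intro b _
    apply Finset.sum_congr rfl
    intro d _
    ring
  have h2 : lam (dl c h i j n) = dl c (fun i m => lam (h i m)) i j n := by
    simp only [dl, map_sum, map_sub, map_add, map_smul]
  obtain ⟨h', hh'⟩ := H (fun a b d => lam (ω a b d)) ⟨fun a b d => by rw [hω.symm a b d], by
    intro a b d e
    have := congrArg lam (hω.coc a b d e)
    simpa only [map_sum, map_add, map_smul] using this⟩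
  rw [h2, h1, ← hh', hs, hh']

end Helper47.RL
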