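import Pool.Agent.Helper20.RL.St3

set_option autoImplicit false

open MeasureTheory Set Filter Topology
open scoped ENNReal RealInnerProductSpace

namespace Pool.Agent.Helper47.RL

open Pool.Agent.Helper20.RG Pool.Agent.Helper20.RL
open Pool.Agent.Helper68.LM (Pl BB Bd Av HL ft fm DQ)
open Pool.Agent.Helper61.Lacunary (ConditionG LpBounded)

theorem graph_scale_LMA {φ τ : ℝ → ℝ} (h : Graph φ τ) {ℓ : ℝ} (hℓ : 0 < ℓ) :
    Graph (fun t => φ (ℓ * t) / ℓ) (fun t => τ (ℓ * t)) := by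
  refine ⟨fun t => h.1 _, fun t t' htt => ?_⟩
  have h1 := h.2 (ℓ * t) (ℓ * t') (mul_le_mul_of_nonneg_left htt hℓ.le)
  have e1 : φ (ℓ * t') / ℓ - φ (ℓ * t) / ℓ = (φ (ℓ * t') - φ (ℓ * t)) / ℓ := by ring
  constructor
  · show τ (ℓ * t) * (t' - t) ≤ φ (ℓ * t') / ℓ - φ (ℓ * t) / ℓ
    rw [e1, le_div_iff₀ hℓ]
    calc τ (ℓ * t) * (t' - t) * ℓ = τ (ℓ * t) * (ℓ * t' - ℓ * t) := by ring
      _ ≤ _ := h1.1
  · show φ (ℓ * t') / ℓ - φ (ℓ * t) / ℓ ≤ τ (ℓ * t') * (t' - t)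
    rw [e1, div_le_iff₀ hℓ]
    calc φ (ℓ * t') - φ (ℓ * t) ≤ τ (ℓ * t') * (ℓ * t' - ℓ * t) := h1.2
      _ = _ := by ring

theorem gap_mono_LMA {A s σ : ℝ} {τ : ℝ → ℝ} (hA : 0 < A) (hs : 0 < s) (hσ : s ≤ σ)
    (h : Gap A s τ) : Gap A σ τ := by
  intro θ i hi
  refine le_trans (h θ i hi) (ENNReal.ofReal_le_ofReal ?_)
  apply mul_le_mul_of_nonneg_left _ hA.le
  apply Real.rpow_le_rpow_of_exponent_le
  · exact_mod_cast hi
  · have : 1 / σ ≤ 1 / s := one_div_le_one_div_of_le hs hσ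
    linarith

theorem hLMA (hPT : StPT) (hCOV : StCOV) (hCAP : StCAP) (hLMB : StLMB) (hRES : StRES)
    (hFIN : StFIN) : StLMA := by
  intro hCore Ω p s hO hC hB h0 hp1 hp2 hs hsp hG
  have hne : Ω.Nonempty := ⟨0, h0⟩
  obtain ⟨n, P, u, v, ℓ, φ, τ, hPiece, hcov⟩ := hCOV Ω hO hC hB hne
  -- the exponents
  have hMm : max s (3 / 2) < p := max_lt hsp hp1
  obtain ⟨σ, hσ1, hσ2⟩ := exists_between hMm
  obtain ⟨q, hq1, hq2⟩ := exists_between hσ2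
  have hsσ : s < σ := lt_of_le_of_lt (le_max_left _ _) hσ1
  have h2σ : 3 / 2 < σ := lt_of_le_of_lt (le_max_right _ _) hσ1
  refine hFIN Ω p n P u v ℓ φ τ hB (by linarith) hPiece hcov ?_
  intro i hi
  have hpi := hPiece i hi
  refine hRES Ω (P i) (u i) (v i) (ℓ i) (φ i) (τ i) p hpi (by linarith) ?_
  intro c
  obtain ⟨A, hA, hgap⟩ := hCAP Ω s hO hC hB hne hs hG (P i) (u i) (v i) (ℓ i) (φ i) (τ i) hpi
  have hgr : Graph (fun t => φ i (ℓ i * t) / ℓ i) (fun t => τ i (ℓ i * t)) :=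
    graph_scale_LMA hpi.graph hpi.pos
  have hgap' : Gap A σ (fun t => τ i (ℓ i * t)) := gap_mono_LMA hA hs hsσ.le hgap
  exact hLMB hCore _ _ A σ q p c hgr hgap' hA h2σ hq1 (by linarith) hq2

end Pool.Agent.Helper47.RL
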