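import Pool.Agent.Helper47.RL.FS

/-!
# Project RG (MP_16b052_ag), part L1: the points of the orbit form an open set of `Alg_r`
-/

namespace Helper47.RL

open Module Helper47.Rig MvPolynomial

universe u v w

variable {k : Type u} [Field k] {r : ℕ}

lemma isAlgR_of_isAlg {p : Tab k r} (hp : IsAlg p) : IsAlgR p := ⟨hp.comm, hp.assoc, hp.unit⟩

lemma tmap_eval_pU (p : Tab k r) :
    tmap (MvPolynomial.eval p.coord : MvPolynomial (Sg r) k →+* k) (pU k r) = p := by
  ext
  · show MvPolynomial.eval p.coord (X (Sum.inl _)) = _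
    rw [eval_X]
    rfl
  · show MvPolynomial.eval p.coord (X (Sum.inr _)) = _
    rw [eval_X]
    rfl

/-- evaluation at a point of `Alg_r` -/
lemma exists_ev {p : Tab k r} (hp : IsAlg p) :
    ∃ e : R0 k r →+* k, ∀ f, e (mkR k r f) = MvPolynomial.eval p.coord f := by
  have h : IAlg k r ≤ RingHom.ker (MvPolynomial.eval p.coord : MvPolynomial (Sg r) k →+* k) := by
    rw [iAlg_le_iff, tmap_eval_pU]
    exact isAlgR_of_isAlg hp
  exact ⟨Ideal.Quotient.lift (IAlg k r) _ h, fun _ => Ideal.Quotient.lift_mk _ _ _⟩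

/-- maps out of the orbit algebra -/
lemma exists_liftB' (c : Tab k r) {D : Type v} [CommRing D]
    (φ : MvPolynomial (Tg r) (R0 k r) →+* D) (h : JIso c ≤ RingHom.ker φ) :
    ∃ ψ : Bc c →+* D, ∀ f, ψ (mkB c f) = φ f :=
  ⟨Ideal.Quotient.lift (JIso c) φ h, fun _ => Ideal.Quotient.lift_mk _ _ _⟩

lemma ev_algebraMap {p : Tab k r} (e : R0 k r →+* k)
    (he : ∀ f, e (mkR k r f) = MvPolynomial.eval p.coord f) (x : k) :
    e (algebraMap k (R0 k r) x) = x := by
  have h : algebraMap k (R0 k r) x = mkR k r (MvPolynomial.C x) := by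
    rw [← MvPolynomial.algebraMap_eq, AlgHom.commutes]
  rw [h, he, eval_C]

lemma tmap_ev_pR {p : Tab k r} (e : R0 k r →+* k)
    (he : ∀ f, e (mkR k r f) = MvPolynomial.eval p.coord f) : tmap e (pR k r) = p := by
  unfold pR
  rw [tmap_tmap]
  conv_rhs => rw [← tmap_eval_pU p]
  congr 1
  funext f
  exact he f

/-- a point of the orbit gives a point of the spectrum of the orbit algebra -/
lemma mem_range_of_isIso {c p : Tab k r} (e : R0 k r →+* k)
    (he : ∀ f, e (mkR k r f) = MvPolynomial.eval p.coord f) (x : PrimeSpectrum (R0 k r))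
    (hx : x.asIdeal = RingHom.ker e) {g g' : Matrix (Fin r) (Fin r) k} (h : IsIso g g' p c) :
    x ∈ Set.range (PrimeSpectrum.comap (algebraMap (R0 k r) (Bc c))) := by
  set φ : MvPolynomial (Tg r) (R0 k r) →+* k :=
    eval₂Hom e (Sum.elim (fun x => g x.1 x.2) (fun x => g' x.1 x.2)) with hφ
  have hφ1 : (gX (R0 k r) r).map φ = g := by
    ext i j
    show φ (X (Sum.inl (i, j))) = g i j
    rw [hφ, eval₂Hom_X']
    rfl
  have hφ2 : (gX' (R0 k r) r).map φ = g' := by
    ext i j
    show φ (X (Sum.inr (i, j))) = g' i j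
    rw [hφ, eval₂Hom_X']
    rfl
  have hφC : ∀ y, φ (MvPolynomial.C y) = e y := fun y => eval₂Hom_C _ _ _
  have e3 : tmap φ (tmap MvPolynomial.C (pR k r)) = p := by
    rw [tmap_tmap]
    conv_rhs => rw [← tmap_ev_pR e he]
    congr 1
    funext y
    exact hφC y
  have e4 : tmap φ (tmap (algebraMap k (MvPolynomial (Tg r) (R0 k r))) c) = c := by
    rw [tmap_tmap]
    have : (φ ∘ (algebraMap k (MvPolynomial (Tg r) (R0 k r))) : k → k) = id := by
      funext y
      show φ (algebraMap k (MvPolynomial (Tg r) (R0 k r)) y) = y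
      rw [IsScalarTower.algebraMap_apply k (R0 k r) (MvPolynomial (Tg r) (R0 k r)),
        MvPolynomial.algebraMap_eq, hφC, ev_algebraMap e he]
    rw [this]
    rfl
  obtain ⟨ψ, hψ⟩ := exists_liftB' c φ (by rw [jIso_le_iff, hφ1, hφ2, e3, e4]; exact h)
  refine ⟨⟨RingHom.ker ψ, RingHom.ker_isPrime ψ⟩, ?_⟩
  apply PrimeSpectrum.ext
  rw [hx, PrimeSpectrum.comap_asIdeal]
  ext y
  rw [Ideal.mem_comap, RingHom.mem_ker, RingHom.mem_ker]
  have : algebraMap (R0 k r) (Bc c) y = mkB c (MvPolynomial.C y) := by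
    rw [← MvPolynomial.algebraMap_eq, AlgHom.commutes]
  rw [this, hψ, hφC]

/-- Hilbert's Nullstellensatz for the fibres -/
lemma isIso_of_mem_range [IsAlgClosed k] {c p : Tab k r} (e : R0 k r →+* k)
    (he : ∀ f, e (mkR k r f) = MvPolynomial.eval p.coord f) (x : PrimeSpectrum (R0 k r))
    (hx : x.asIdeal = RingHom.ker e)
    (h : x ∈ Set.range (PrimeSpectrum.comap (algebraMap (R0 k r) (Bc c)))) :
    ∃ g g' : Matrix (Fin r) (Fin r) k, IsIso g g' p c := by
  obtain ⟨y, hy⟩ := h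
  obtain ⟨M, hM, hyM⟩ := Ideal.exists_le_maximal y.asIdeal y.isPrime.ne_top
  have hesurj : Function.Surjective e := fun z => ⟨_, ev_algebraMap e he z⟩
  have hmax : (RingHom.ker e).IsMaximal := RingHom.ker_isMaximal_of_surjective e hesurj
  have hle : RingHom.ker e ≤ M.comap (algebraMap (R0 k r) (Bc c)) := by
    rw [← hx, ← hy, PrimeSpectrum.comap_asIdeal]
    exact Ideal.comap_mono hyM
  have hprime : (M.comap (algebraMap (R0 k r) (Bc c))).IsPrime := Ideal.comap_isPrime _ _
  have heq : M.comap (algebraMap (R0 k r) (Bc c)) = RingHom.ker e :=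
    (hmax.eq_of_le hprime.ne_top hle).symm
  letI : Field (Bc c ⧸ M) := Ideal.Quotient.field M
  letI : Algebra k (Bc c ⧸ M) :=
    ((algebraMap (R0 k r) (Bc c ⧸ M)).comp (algebraMap k (R0 k r))).toAlgebra
  haveI : IsScalarTower k (R0 k r) (Bc c ⧸ M) := IsScalarTower.of_algebraMap_eq' rfl
  haveI : Algebra.FiniteType (R0 k r) (Bc c ⧸ M) :=
    Algebra.FiniteType.of_surjective (Ideal.Quotient.mkₐ (R0 k r) M)
      (Ideal.Quotient.mkₐ_surjective (R0 k r) M)
  haveI : Algebra.FiniteType k (R0 k r) :=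
    Algebra.FiniteType.of_surjective (mkR k r) (mkR_surjective k r)
  haveI : Algebra.FiniteType k (Bc c ⧸ M) :=
    Algebra.FiniteType.trans (R := k) (S := R0 k r) inferInstance inferInstance
  haveI : Module.Finite k (Bc c ⧸ M) := finite_of_finite_type_of_isJacobsonRing k (Bc c ⧸ M)
  have hbij : Function.Bijective (algebraMap k (Bc c ⧸ M)) :=
    IsAlgClosed.algebraMap_bijective_of_isIntegral
  set s : Bc c ⧸ M →+* k := (RingEquiv.ofBijective _ hbij).symm.toRingHom with hs
  have hs1 : ∀ z : k, s (algebraMap k (Bc c ⧸ M) z) = z := by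
    intro z
    exact (RingEquiv.ofBijective _ hbij).symm_apply_apply z
  have hs2 : ∀ w : Bc c ⧸ M, s w = 0 → w = 0 := by
    intro w hw
    obtain ⟨z, rfl⟩ := hbij.2 w
    rw [hs1] at hw
    rw [hw, map_zero]
  set χ : Bc c →+* k := s.comp (Ideal.Quotient.mk M) with hχ
  have hχ1 : ∀ y : R0 k r, χ (algebraMap (R0 k r) (Bc c) y) = e y := by
    intro y
    have h1 : y - algebraMap k (R0 k r) (e y) ∈ RingHom.ker e := by
      rw [RingHom.mem_ker, map_sub, ev_algebraMap e he, sub_self]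
    rw [← heq, Ideal.mem_comap, map_sub, ← Ideal.Quotient.eq_zero_iff_mem, map_sub,
      sub_eq_zero] at h1
    show s (Ideal.Quotient.mk M (algebraMap (R0 k r) (Bc c) y)) = e y
    rw [h1]
    exact hs1 (e y)
  set φ : MvPolynomial (Tg r) (R0 k r) →+* k :=
    χ.comp (mkB c : MvPolynomial (Tg r) (R0 k r) →+* Bc c) with hφ
  have hφC : ∀ y, φ (MvPolynomial.C y) = e y := by
    intro y
    show χ (mkB c (MvPolynomial.C y)) = e y
    rw [← MvPolynomial.algebraMap_eq, AlgHom.commutes, hχ1]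
  have hk : JIso c ≤ RingHom.ker φ := by
    intro z hz
    rw [← ker_mkB c] at hz
    show χ (mkB c z) = 0
    have : mkB c z = 0 := hz
    rw [this, map_zero]
  rw [jIso_le_iff] at hk
  have e3 : tmap φ (tmap MvPolynomial.C (pR k r)) = p := by
    rw [tmap_tmap]
    conv_rhs => rw [← tmap_ev_pR e he]
    congr 1
    funext y
    exact hφC y
  have e4 : tmap φ (tmap (algebraMap k (MvPolynomial (Tg r) (R0 k r))) c) = c := by
    rw [tmap_tmap]
    have : (φ ∘ (algebraMap k (MvPolynomial (Tg r) (R0 k r))) : k → k) = id := by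
      funext y
      show φ (algebraMap k (MvPolynomial (Tg r) (R0 k r)) y) = y
      rw [IsScalarTower.algebraMap_apply k (R0 k r) (MvPolynomial (Tg r) (R0 k r)),
        MvPolynomial.algebraMap_eq, hφC, ev_algebraMap e he]
    rw [this]
    rfl
  rw [e3, e4] at hk
  exact ⟨_, _, hk⟩

/-- The tables isomorphic to `c` form an open subset of `Alg_r`, if every symmetric 2-cocycle
of the algebra with table `c` is a coboundary. -/
theorem open_orbit [IsAlgClosed k] {c : Tab k r} (hc : IsAlg c) (H : H2Z c.mul) :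
    ∃ S : Set (MvPolynomial (Sg r) k), ∀ p : Tab k r, IsAlg p →
      ((∃ g g' : Matrix (Fin r) (Fin r) k, IsIso g g' p c) ↔
        ∃ f ∈ S, MvPolynomial.eval p.coord f ≠ 0) := by
  have hopen := isOpen_range hc H
  rw [← isClosed_compl_iff, PrimeSpectrum.isClosed_iff_zeroLocus] at hopen
  obtain ⟨S0, hS0⟩ := hopen
  refine ⟨{f | mkR k r f ∈ S0}, ?_⟩
  intro p hp
  obtain ⟨e, he⟩ := exists_ev hp
  set x : PrimeSpectrum (R0 k r) := ⟨RingHom.ker e, RingHom.ker_isPrime e⟩ with hx
  have h1 : (∃ g g' : Matrix (Fin r) (Fin r) k, IsIso g g' p c) ↔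
      x ∈ Set.range (PrimeSpectrum.comap (algebraMap (R0 k r) (Bc c))) :=
    ⟨fun ⟨_, _, h⟩ => mem_range_of_isIso e he x rfl h, isIso_of_mem_range e he x rfl⟩
  rw [h1, ← not_iff_not, ← Set.mem_compl_iff, hS0, PrimeSpectrum.mem_zeroLocus]
  constructor
  · rintro h ⟨f, hf, hf0⟩
    apply hf0
    have h2 : mkR k r f ∈ RingHom.ker e := h hf
    rw [RingHom.mem_ker, he] at h2
    exact h2
  · intro h f0 hf0
    obtain ⟨f, rfl⟩ := mkR_surjective k r f0
    show mkR k r f ∈ RingHom.ker e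
    rw [RingHom.mem_ker, he]
    by_contra hne
    exact h ⟨f, hf0, hne⟩

end Helper47.RL
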