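import Pool.Agent.Helper47.RL.Step

/-!
# Project RG (MP_16b052_ag), part L1: the orbit algebra is formally smooth
-/

namespace Helper47.RL

open Module Helper47.Rig MvPolynomial

universe u v w

section maps

variable {C : Type u} {D : Type v} [CommRing C] [CommRing D] {r : ℕ} (φ : C →+* D)

lemma map_mu (p : Tab C r) (x y : Fin r → C) :
    φ ∘ (mu p x y) = mu (tmap φ p) (φ ∘ x) (φ ∘ y) := by
  funext n
  rw [Function.comp_apply, mu_apply, mu_apply]
  simp only [map_sum, map_mul]
  rfl

lemma map_mulVec (g : Matrix (Fin r) (Fin r) C) (x : Fin r → C) :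
    φ ∘ (g.mulVec x) = (g.map φ).mulVec (φ ∘ x) := by
  funext n
  rw [Function.comp_apply, Matrix.mulVec, Matrix.mulVec, dotProduct, dotProduct]
  simp only [map_sum, map_mul]
  rfl

lemma map_single (i : Fin r) : φ ∘ (Pi.single i 1 : Fin r → C) = Pi.single i 1 := by
  funext n
  rw [Function.comp_apply, Pi.single_apply, Pi.single_apply]
  split_ifs <;> simp

lemma map_trans (G G' : Matrix (Fin r) (Fin r) C) (p : Tab C r) :
    tmap φ (trans G G' p) = trans (G.map φ) (G'.map φ) (tmap φ p) := by
  ext1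
  · funext i j
    have : φ ∘ ((trans G G' p).mul i j) = (trans (G.map φ) (G'.map φ) (tmap φ p)).mul i j := by
      unfold trans
      rw [map_mulVec, map_mu, map_mulVec, map_mulVec, map_single, map_single]
    exact this
  · have : φ ∘ ((trans G G' p).one) = (trans (G.map φ) (G'.map φ) (tmap φ p)).one := by
      unfold trans
      rw [map_mulVec]
      rfl
    exact this

lemma isIso_map_iff (g g' : Matrix (Fin r) (Fin r) C) (p q : Tab C r) :
    IsIso (g.map φ) (g'.map φ) (tmap φ p) (tmap φ q) ↔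
      (∀ i j, φ ((g * g' - 1) i j) = 0) ∧
      (∀ i j m, φ ((g.mulVec (p.mul i j) - mu q (g.mulVec (Pi.single i 1))
        (g.mulVec (Pi.single j 1))) m) = 0) ∧
      (∀ m, φ ((g.mulVec p.one - q.one) m) = 0) := by
  have h1 : (g.map φ * g'.map φ = 1) ↔ ∀ i j, φ ((g * g' - 1) i j) = 0 := by
    rw [← Matrix.map_mul]
    constructor
    · intro h i j
      rw [Matrix.sub_apply, map_sub, sub_eq_zero]
      have := congrFun (congrFun h i) j
      rw [Matrix.map_apply] at this
      rw [this, Matrix.one_apply, Matrix.one_apply]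
      split_ifs <;> simp
    · intro h
      ext i j
      have := h i j
      rw [Matrix.sub_apply, map_sub, sub_eq_zero] at this
      rw [Matrix.map_apply, this, Matrix.one_apply, Matrix.one_apply]
      split_ifs <;> simp
  have h2 : ∀ i j, ((g.map φ).mulVec ((tmap φ p).mul i j) =
      mu (tmap φ q) ((g.map φ).mulVec (Pi.single i 1)) ((g.map φ).mulVec (Pi.single j 1))) ↔
      ∀ m, φ ((g.mulVec (p.mul i j) - mu q (g.mulVec (Pi.single i 1))
        (g.mulVec (Pi.single j 1))) m) = 0 := by
    intro i j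
    rw [← map_single φ i, ← map_single φ j, ← map_mulVec, ← map_mulVec, ← map_mu]
    have e : (tmap φ p).mul i j = φ ∘ (p.mul i j) := rfl
    rw [e, ← map_mulVec]
    constructor
    · intro h m
      rw [Pi.sub_apply, map_sub, sub_eq_zero]
      exact congrFun h m
    · intro h
      funext m
      have := h m
      rw [Pi.sub_apply, map_sub, sub_eq_zero] at this
      exact this
  have h3 : (g.map φ).mulVec (tmap φ p).one = (tmap φ q).one ↔
      ∀ m, φ ((g.mulVec p.one - q.one) m) = 0 := by
    have e : (tmap φ p).one = φ ∘ p.one := rfl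
    rw [e, ← map_mulVec]
    constructor
    · intro h m
      rw [Pi.sub_apply, map_sub, sub_eq_zero]
      exact congrFun h m
    · intro h
      funext m
      have := h m
      rw [Pi.sub_apply, map_sub, sub_eq_zero] at this
      exact this
  constructor
  · rintro ⟨a, b, c⟩
    exact ⟨h1.1 a, fun i j => (h2 i j).1 (b i j), h3.1 c⟩
  · rintro ⟨a, b, c⟩
    exact ⟨h1.2 a, fun i j => (h2 i j).2 (b i j), h3.2 c⟩

lemma isAlgR_map_iff (p : Tab C r) : IsAlgR (tmap φ p) ↔
    (∀ i j l, φ (p.mul i j l - p.mul j i l) = 0) ∧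
    (∀ i j l n, φ (∑ m, p.mul i j m * p.mul m l n - ∑ m, p.mul j l m * p.mul i m n) = 0) ∧
    (∀ j l, φ (∑ i, p.one i * p.mul i j l - if j = l then 1 else 0) = 0) := by
  constructor
  · rintro ⟨a, b, c⟩
    refine ⟨?_, ?_, ?_⟩
    · intro i j l
      rw [map_sub, sub_eq_zero]
      exact a i j l
    · intro i j l n
      rw [map_sub, sub_eq_zero, map_sum, map_sum]
      simp only [map_mul]
      exact b i j l n
    · intro j l
      rw [map_sub, sub_eq_zero, map_sum]
      simp only [map_mul]
      refine (c j l).trans ?_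
      split_ifs <;> simp
  · rintro ⟨a, b, c⟩
    refine ⟨?_, ?_, ?_⟩
    · intro i j l
      have := a i j l
      rw [map_sub, sub_eq_zero] at this
      exact this
    · intro i j l n
      have := b i j l n
      rw [map_sub, sub_eq_zero, map_sum, map_sum] at this
      simp only [map_mul] at this
      exact this
    · intro j l
      have := c j l
      rw [map_sub, sub_eq_zero, map_sum] at this
      simp only [map_mul] at this
      refine this.trans ?_
      split_ifs <;> simp

omit [CommRing C] [CommRing D] in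
lemma tmap_tmap {E : Type w} (f : C → D) (g : D → E) (p : Tab C r) :
    tmap g (tmap f p) = tmap (g ∘ f) p := rfl

end maps

section univ

variable (k : Type u) [Field k] (r : ℕ)

/-- the index set of the coordinates of a table -/
abbrev Sg (r : ℕ) : Type := (Fin r × Fin r × Fin r) ⊕ Fin r

/-- the universal table -/
noncomputable def pU : Tab (MvPolynomial (Sg r) k) r :=
  ⟨fun i j l => X (Sum.inl (i, j, l)), fun i => X (Sum.inr i)⟩

/-- the ideal of `Alg_r` -/
noncomputable def IAlg : Ideal (MvPolynomial (Sg r) k) :=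
  Ideal.span {f | (∃ i j l, f = (pU k r).mul i j l - (pU k r).mul j i l) ∨
    (∃ i j l n, f = ∑ m, (pU k r).mul i j m * (pU k r).mul m l n -
      ∑ m, (pU k r).mul j l m * (pU k r).mul i m n) ∨
    (∃ j l, f = ∑ i, (pU k r).one i * (pU k r).mul i j l - if j = l then 1 else 0)}

/-- the coordinate ring of `Alg_r` -/
def R0 : Type u := MvPolynomial (Sg r) k ⧸ IAlg k r

noncomputable instance : CommRing (R0 k r) :=
  inferInstanceAs (CommRing (MvPolynomial (Sg r) k ⧸ IAlg k r))

noncomputable instance : Algebra k (R0 k r) :=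
  inferInstanceAs (Algebra k (MvPolynomial (Sg r) k ⧸ IAlg k r))

/-- the projection -/
noncomputable def mkR : MvPolynomial (Sg r) k →ₐ[k] R0 k r := Ideal.Quotient.mkₐ k (IAlg k r)

lemma mkR_surjective : Function.Surjective (mkR k r) := Ideal.Quotient.mkₐ_surjective k (IAlg k r)

lemma ker_mkR : RingHom.ker (mkR k r : MvPolynomial (Sg r) k →+* R0 k r) = IAlg k r :=
  Ideal.mk_ker

instance : IsNoetherianRing (R0 k r) :=
  isNoetherianRing_of_surjective _ _ (mkR k r).toRingHom (mkR_surjective k r)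

/-- the universal algebra over the coordinate ring of `Alg_r` -/
noncomputable def pR : Tab (R0 k r) r := tmap (mkR k r : MvPolynomial (Sg r) k →+* R0 k r) (pU k r)

variable {k r}

lemma iAlg_le_iff {C : Type v} [CommRing C] (φ : MvPolynomial (Sg r) k →+* C) :
    IAlg k r ≤ RingHom.ker φ ↔ IsAlgR (tmap φ (pU k r)) := by
  rw [isAlgR_map_iff, IAlg, Ideal.span_le]
  constructor
  · intro h
    refine ⟨?_, ?_, ?_⟩
    · intro i j l
      exact h (Or.inl ⟨i, j, l, rfl⟩)
    · intro i j l n
      exact h (Or.inr (Or.inl ⟨i, j, l, n, rfl⟩))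
    · intro j l
      exact h (Or.inr (Or.inr ⟨j, l, rfl⟩))
  · rintro ⟨a, b, c⟩ f (⟨i, j, l, rfl⟩ | ⟨i, j, l, n, rfl⟩ | ⟨j, l, rfl⟩)
    · exact a i j l
    · exact b i j l n
    · exact c j l

lemma isAlgR_pR : IsAlgR (pR k r) := by
  unfold pR
  rw [← iAlg_le_iff, ker_mkR]

/-- index set of the coordinates of `g`, `g'` -/
abbrev Tg (r : ℕ) : Type := (Fin r × Fin r) ⊕ (Fin r × Fin r)

/-- the generic matrix -/
noncomputable def gX (R : Type u) [CommRing R] (r : ℕ) :
    Matrix (Fin r) (Fin r) (MvPolynomial (Tg r) R) :=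
  Matrix.of fun i j => X (Sum.inl (i, j))

/-- the generic inverse matrix -/
noncomputable def gX' (R : Type u) [CommRing R] (r : ℕ) :
    Matrix (Fin r) (Fin r) (MvPolynomial (Tg r) R) :=
  Matrix.of fun i j => X (Sum.inr (i, j))

/-- the ideal of the isomorphisms from the universal algebra to the algebra with table `c` -/
noncomputable def JIso (c : Tab k r) : Ideal (MvPolynomial (Tg r) (R0 k r)) :=
  Ideal.span {f | (∃ i j, f = (gX (R0 k r) r * gX' (R0 k r) r - 1) i j) ∨
    (∃ i j m, f = ((gX (R0 k r) r).mulVec ((tmap MvPolynomial.C (pR k r)).mul i j) -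
      mu (tmap (algebraMap k (MvPolynomial (Tg r) (R0 k r))) c)
        ((gX (R0 k r) r).mulVec (Pi.single i 1)) ((gX (R0 k r) r).mulVec (Pi.single j 1))) m) ∨
    (∃ m, f = ((gX (R0 k r) r).mulVec (tmap MvPolynomial.C (pR k r)).one -
      (tmap (algebraMap k (MvPolynomial (Tg r) (R0 k r))) c).one) m)}

lemma jIso_le_iff (c : Tab k r) {D : Type v} [CommRing D]
    (φ : MvPolynomial (Tg r) (R0 k r) →+* D) :
    JIso c ≤ RingHom.ker φ ↔ IsIso ((gX (R0 k r) r).map φ) ((gX' (R0 k r) r).map φ)
      (tmap φ (tmap MvPolynomial.C (pR k r)))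
      (tmap φ (tmap (algebraMap k (MvPolynomial (Tg r) (R0 k r))) c)) := by
  rw [isIso_map_iff, JIso, Ideal.span_le]
  constructor
  · intro h
    refine ⟨?_, ?_, ?_⟩
    · intro i j
      exact h (Or.inl ⟨i, j, rfl⟩)
    · intro i j m
      exact h (Or.inr (Or.inl ⟨i, j, m, rfl⟩))
    · intro m
      exact h (Or.inr (Or.inr ⟨m, rfl⟩))
  · rintro ⟨a, b, d⟩ f (⟨i, j, rfl⟩ | ⟨i, j, m, rfl⟩ | ⟨m, rfl⟩)
    · exact a i j
    · exact b i j m
    · exact d m

/-- the orbit algebra: isomorphisms from the universal algebra to the algebra with table `c` -/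
def Bc (c : Tab k r) : Type u := MvPolynomial (Tg r) (R0 k r) ⧸ JIso c

noncomputable instance (c : Tab k r) : CommRing (Bc c) :=
  inferInstanceAs (CommRing (MvPolynomial (Tg r) (R0 k r) ⧸ JIso c))

noncomputable instance (c : Tab k r) : Algebra (R0 k r) (Bc c) :=
  inferInstanceAs (Algebra (R0 k r) (MvPolynomial (Tg r) (R0 k r) ⧸ JIso c))

/-- the projection -/
noncomputable def mkB (c : Tab k r) : MvPolynomial (Tg r) (R0 k r) →ₐ[R0 k r] Bc c :=
  Ideal.Quotient.mkₐ (R0 k r) (JIso c)

lemma mkB_surjective (c : Tab k r) : Function.Surjective (mkB c) :=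
  Ideal.Quotient.mkₐ_surjective (R0 k r) (JIso c)

lemma ker_mkB (c : Tab k r) :
    RingHom.ker (mkB c : MvPolynomial (Tg r) (R0 k r) →+* Bc c) = JIso c :=
  Ideal.mk_ker

/-- maps out of the orbit algebra -/
lemma exists_liftB (c : Tab k r) {D : Type v} [CommRing D] [Algebra (R0 k r) D]
    (φ : MvPolynomial (Tg r) (R0 k r) →ₐ[R0 k r] D)
    (h : JIso c ≤ RingHom.ker (φ : MvPolynomial (Tg r) (R0 k r) →+* D)) :
    ∃ ψ : Bc c →ₐ[R0 k r] D, ψ.comp (mkB c) = φ := by
  refine ⟨Ideal.Quotient.liftₐ (JIso c) φ h, ?_⟩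
  exact Ideal.Quotient.liftₐ_comp (JIso c) φ h

instance (c : Tab k r) : Algebra.FiniteType (R0 k r) (Bc c) :=
  Algebra.FiniteType.of_surjective (mkB c) (mkB_surjective c)

instance (c : Tab k r) : Algebra.FinitePresentation (R0 k r) (Bc c) :=
  Algebra.FinitePresentation.of_finiteType.mp inferInstance

end univ

end Helper47.RL
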