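import Pool.Agent.Helper47.RL.Lin

/-!
# Project RG (MP_16b052_ag), part L1: the infinitesimal step
-/

namespace Helper47.RL

open Module Helper47.Rig

universe u v w

/-- image of a table under a map -/
def tmap {C : Type u} {D : Type v} {r : ℕ} (f : C → D) (p : Tab C r) : Tab D r :=
  ⟨fun i j l => f (p.mul i j l), fun i => f (p.one i)⟩

/-- `g` is an isomorphism from the algebra with table `p` to the one with table `q`, with inverse
`g'` -/
structure IsIso {C : Type u} [CommRing C] {r : ℕ} (g g' : Matrix (Fin r) (Fin r) C)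
    (p q : Tab C r) : Prop where
  inv : g * g' = 1
  mul : ∀ i j, g.mulVec (p.mul i j) = mu q (g.mulVec (Pi.single i 1)) (g.mulVec (Pi.single j 1))
  one : g.mulVec p.one = q.one

section

variable {C : Type u} [CommRing C] {r : ℕ}

lemma mul_all {g : Matrix (Fin r) (Fin r) C} {p q : Tab C r}
    (h : ∀ i j, g.mulVec (p.mul i j) =
      mu q (g.mulVec (Pi.single i 1)) (g.mulVec (Pi.single j 1))) (x y : Fin r → C) :
    g.mulVec (mu p x y) = mu q (g.mulVec x) (g.mulVec y) := by
  have : (mu p).compr₂ g.mulVecLin = (mu q).compl₁₂ g.mulVecLin g.mulVecLin := by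
    apply ext2
    intro i
    apply ext2
    intro j
    have := h i j
    rw [← mu_single p] at this
    exact this
  exact congrArg (fun f => f x y) this

lemma isIso_of_mul {g g' : Matrix (Fin r) (Fin r) C} {p q : Tab C r} (hp : IsAlgR p)
    (hq : IsAlgR q) (hg : g * g' = 1)
    (h : ∀ i j, g.mulVec (p.mul i j) =
      mu q (g.mulVec (Pi.single i 1)) (g.mulVec (Pi.single j 1))) : IsIso g g' p q := by
  refine ⟨hg, h, ?_⟩
  have h1 := mul_all h p.one (g'.mulVec q.one)
  rw [one_mu hp, Matrix.mulVec_mulVec, hg, Matrix.one_mulVec, mu_comm hq, one_mu hq] at h1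
  exact h1.symm

lemma isIso_trans {g g' h h' : Matrix (Fin r) (Fin r) C} {p q s : Tab C r} (hg : IsIso g g' p q)
    (hh : IsIso h h' q s) : IsIso (h * g) (g' * h') p s := by
  refine ⟨?_, ?_, ?_⟩
  · rw [Matrix.mul_assoc, ← Matrix.mul_assoc g, hg.inv, Matrix.one_mul, hh.inv]
  · intro i j
    rw [← Matrix.mulVec_mulVec, hg.mul, mul_all hh.mul, Matrix.mulVec_mulVec, Matrix.mulVec_mulVec]
  · rw [← Matrix.mulVec_mulVec, hg.one, hh.one]

lemma isIso_transport {G G' : Matrix (Fin r) (Fin r) C} (h : G * G' = 1) (p : Tab C r) :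
    IsIso G G' p (trans G G' p) := by
  have h' : G' * G = 1 := mul_eq_one_comm.mp h
  refine ⟨h, ?_, rfl⟩
  intro i j
  rw [mu_trans, Matrix.mulVec_mulVec, Matrix.mulVec_mulVec, h', Matrix.one_mulVec,
    Matrix.one_mulVec, mu_single]

end

section

variable {k : Type u} [Field k] {r : ℕ}

lemma isAlgR_tmap {c : Tab k r} (hc : IsAlg c) {C : Type v} [CommRing C] (f : k →+* C) :
    IsAlgR (tmap f c) := by
  refine ⟨?_, ?_, ?_⟩
  · intro i j l
    show f (c.mul i j l) = f (c.mul j i l)
    rw [hc.comm]
  · intro i j l n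
    show ∑ m, f (c.mul i j m) * f (c.mul m l n) = ∑ m, f (c.mul j l m) * f (c.mul i m n)
    have := congrArg f (hc.assoc i j l n)
    simpa only [map_sum, map_mul] using this
  · intro j l
    show ∑ i, f (c.one i) * f (c.mul i j l) = if j = l then 1 else 0
    have := congrArg f (hc.unit j l)
    simp only [map_sum, map_mul] at this
    rw [this]
    split_ifs <;> simp

theorem inf_step {c : Tab k r} (hc : IsAlg c) (H : H2Z c.mul) {C : Type v} [CommRing C]
    [Algebra k C] (I : Ideal C) (hI : I ^ 2 = ⊥) (q : Tab C r) (hq : IsAlgR q)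
    (hmul : ∀ i j l, q.mul i j l - algebraMap k C (c.mul i j l) ∈ I) :
    ∃ E : Matrix (Fin r) (Fin r) C, (∀ i j, E i j ∈ I) ∧
      IsIso (1 + E) (1 - E) q (tmap (algebraMap k C) c) := by
  have hz : ∀ x ∈ I, ∀ y ∈ I, x * y = 0 := by
    intro x hx y hy
    have h1 : x * y ∈ I ^ 2 := by
      rw [pow_two]
      exact Ideal.mul_mem_mul hx hy
    rw [hI] at h1
    exact (Submodule.mem_bot C).1 h1
  set ω : Fin r → Fin r → Fin r → I := fun i j l => ⟨_, hmul i j l⟩ with hω
  have hcoe : ∀ i j l, ((ω i j l : I) : C) = q.mul i j l - algebraMap k C (c.mul i j l) :=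
    fun i j l => rfl
  have hQ : ∀ i j l, q.mul i j l = algebraMap k C (c.mul i j l) + ω i j l := by
    intro i j l
    rw [hcoe]; ring
  have hZ : IsZ c.mul ω := by
    refine ⟨?_, ?_⟩
    · intro i j l
      apply Subtype.ext
      rw [hcoe, hcoe, hq.comm, hc.comm]
    · intro i j l n
      apply Subtype.ext
      rw [AddSubmonoidClass.coe_finsetSum, AddSubmonoidClass.coe_finsetSum]
      have h1 := hq.assoc i j l n
      have h2 := congrArg (algebraMap k C) (hc.assoc i j l n)
      simp only [map_sum, map_mul] at h2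
      have e1 : ∀ m, q.mul i j m * q.mul m l n = algebraMap k C (c.mul i j m) *
          algebraMap k C (c.mul m l n) + ((c.mul i j m • ω m l n + c.mul m l n • ω i j m : I) : C)
          := by
        intro m
        rw [hQ, hQ, Submodule.coe_add, Submodule.coe_smul_of_tower, Submodule.coe_smul_of_tower,
          Algebra.smul_def, Algebra.smul_def]
        have := hz _ (ω i j m).2 _ (ω m l n).2
        linear_combination this
      have e2 : ∀ m, q.mul j l m * q.mul i m n = algebraMap k C (c.mul j l m) *
          algebraMap k C (c.mul i m n) + ((c.mul j l m • ω i m n + c.mul i m n • ω j l m : I) : C)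
          := by
        intro m
        rw [hQ, hQ, Submodule.coe_add, Submodule.coe_smul_of_tower, Submodule.coe_smul_of_tower,
          Algebra.smul_def, Algebra.smul_def]
        have := hz _ (ω j l m).2 _ (ω i m n).2
        linear_combination this
      rw [Finset.sum_congr rfl (fun m _ => e1 m), Finset.sum_congr rfl (fun m _ => e2 m),
        Finset.sum_add_distrib, Finset.sum_add_distrib, h2] at h1
      exact add_left_cancel h1
  obtain ⟨h, hh⟩ := h2_module H ω hZ
  set E : Matrix (Fin r) (Fin r) C := Matrix.of fun a i => ((h i a : I) : C) with hE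
  have hEI : ∀ i j, E i j ∈ I := fun i j => (h j i).2
  refine ⟨E, hEI, ?_⟩
  have hEE : E * E = 0 := by
    ext i j
    rw [Matrix.mul_apply]
    apply Finset.sum_eq_zero
    intro m _
    exact hz _ (hEI i m) _ (hEI m j)
  apply isIso_of_mul hq (isAlgR_tmap hc _)
  · rw [Matrix.mul_sub, Matrix.mul_one, Matrix.add_mul, Matrix.one_mul, hEE]
    simp
  · intro i j
    have es : ∀ i, (1 + E).mulVec (Pi.single i 1) = Pi.single i 1 + fun a => ((h i a : I) : C) := by
      intro i
      rw [Matrix.add_mulVec, Matrix.one_mulVec, Matrix.mulVec_single_one]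
      rfl
    rw [es, es, map_add, map_add, LinearMap.add_apply, LinearMap.add_apply, mu_single]
    funext n
    rw [Matrix.add_mulVec, Matrix.one_mulVec]
    simp only [Pi.add_apply]
    rw [mu_apply, mu_apply, mu_apply]
    have t1 : ∑ a, ∑ b, (Pi.single i 1 : Fin r → C) a * (((h j b : I) : C) *
        (tmap (algebraMap k C) c).mul a b n) =
        ∑ m, ((h j m : I) : C) * algebraMap k C (c.mul i m n) := by
      rw [Finset.sum_eq_single i]
      · apply Finset.sum_congr rfl
        intro m _
        simp [tmap]
      · intro b _ hb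
        simp [hb]
      · simp
    have t2 : ∑ a, ∑ b, ((h i a : I) : C) * ((Pi.single j 1 : Fin r → C) b *
        (tmap (algebraMap k C) c).mul a b n) =
        ∑ m, ((h i m : I) : C) * algebraMap k C (c.mul m j n) := by
      apply Finset.sum_congr rfl
      intro m _
      rw [Finset.sum_eq_single j]
      · simp [tmap]
      · intro b _ hb
        simp [hb]
      · simp
    have t3 : ∑ a, ∑ b, ((h i a : I) : C) * (((h j b : I) : C) *
        (tmap (algebraMap k C) c).mul a b n) = 0 := by
      apply Finset.sum_eq_zero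
      intro a _
      apply Finset.sum_eq_zero
      intro b _
      rw [← mul_assoc, hz _ (h i a).2 _ (h j b).2, zero_mul]
    rw [t1, t2, t3]
    have t4 : E.mulVec (q.mul i j) n = ∑ m, ((h m n : I) : C) * algebraMap k C (c.mul i j m) := by
      rw [Matrix.mulVec, dotProduct]
      apply Finset.sum_congr rfl
      intro m _
      rw [hQ i j m]
      have := hz _ (hEI n m) _ (ω i j m).2
      show E n m * _ = E n m * _
      linear_combination this
    rw [t4, hQ i j n, ← hh]
    have t5 : ((dl c.mul h i j n : I) : C) = ∑ m, ((h i m : I) : C) * algebraMap k C (c.mul m j n)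
        + ∑ m, ((h j m : I) : C) * algebraMap k C (c.mul i m n)
        - ∑ m, ((h m n : I) : C) * algebraMap k C (c.mul i j m) := by
      rw [← Finset.sum_add_distrib, ← Finset.sum_sub_distrib]
      unfold dl
      rw [AddSubmonoidClass.coe_finsetSum]
      apply Finset.sum_congr rfl
      intro m _
      rw [Submodule.coe_sub, Submodule.coe_add, Submodule.coe_smul_of_tower,
        Submodule.coe_smul_of_tower, Submodule.coe_smul_of_tower, Algebra.smul_def,
        Algebra.smul_def, Algebra.smul_def]
      ring
    rw [t5]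
    show _ = (algebraMap k C (c.mul i j n) + _) + _
    ring

end

end Helper47.RL
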