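import Pool.Agent.Helper47.Rig.Defs

/-!
# Project RG (MP_16b052_ag), part L1: multiplication tables over a commutative ring

`mu p` is the bilinear multiplication on `C^r` with table `p`.
-/

namespace Helper47.RL

open Module Helper47.Rig

universe u v

/-- the identities of a point of `Alg_r` over a commutative ring `C` -/
structure IsAlgR {C : Type u} [CommRing C] {r : ℕ} (p : Tab C r) : Prop where
  comm : ∀ i j l, p.mul i j l = p.mul j i l
  assoc : ∀ i j l n, ∑ m, p.mul i j m * p.mul m l n = ∑ m, p.mul j l m * p.mul i m n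
  unit : ∀ j l, ∑ i, p.one i * p.mul i j l = if j = l then 1 else 0

/-- the bilinear multiplication on `C^r` with table `p` -/
noncomputable def mu {C : Type u} [CommRing C] {r : ℕ} (p : Tab C r) :
    (Fin r → C) →ₗ[C] (Fin r → C) →ₗ[C] (Fin r → C) :=
  (Pi.basisFun C (Fin r)).constr C fun i => (Pi.basisFun C (Fin r)).constr C fun j => p.mul i j

section

variable {C : Type u} [CommRing C] {r : ℕ}

lemma mu_single (p : Tab C r) (i j : Fin r) :
    mu p (Pi.single i 1) (Pi.single j 1) = p.mul i j := by
  unfold mu
  rw [← Pi.basisFun_apply, Basis.constr_basis, ← Pi.basisFun_apply, Basis.constr_basis]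

lemma mu_apply (p : Tab C r) (x y : Fin r → C) (n : Fin r) :
    mu p x y n = ∑ i, ∑ j, x i * (y j * p.mul i j n) := by
  unfold mu
  rw [Basis.constr_apply_fintype, LinearMap.sum_apply, Finset.sum_apply]
  apply Finset.sum_congr rfl
  intro i _
  rw [LinearMap.smul_apply, Pi.smul_apply, Basis.constr_apply_fintype, Finset.sum_apply,
    smul_eq_mul, Finset.mul_sum]
  apply Finset.sum_congr rfl
  intro j _
  rfl

lemma ext2 {M : Type u} [AddCommGroup M] [Module C M] {f g : (Fin r → C) →ₗ[C] M}
    (h : ∀ i, f (Pi.single i 1) = g (Pi.single i 1)) : f = g := by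
  apply (Pi.basisFun C (Fin r)).ext
  intro i
  rw [Pi.basisFun_apply]
  exact h i

lemma mu_comm {p : Tab C r} (hp : IsAlgR p) (x y : Fin r → C) : mu p x y = mu p y x := by
  have : mu p = (mu p).flip := by
    apply ext2
    intro i
    apply ext2
    intro j
    rw [LinearMap.flip_apply, mu_single, mu_single]
    funext l
    exact hp.comm i j l
  have h2 := congrArg (fun f => f x y) this
  exact h2

lemma mu_assoc_basis {p : Tab C r} (hp : IsAlgR p) (i j l : Fin r) :
    mu p (mu p (Pi.single i 1) (Pi.single j 1)) (Pi.single l 1) =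
      mu p (Pi.single i 1) (mu p (Pi.single j 1) (Pi.single l 1)) := by
  funext n
  rw [mu_single, mu_single, mu_apply, mu_apply]
  have h1 : ∀ m, ∑ j', p.mul i j m * ((Pi.single l 1 : Fin r → C) j' * p.mul m j' n) =
      p.mul i j m * p.mul m l n := by
    intro m
    rw [Finset.sum_eq_single l]
    · simp
    · intro b _ hb
      simp [hb]
    · simp
  have h2 : ∑ i', ∑ m, (Pi.single i 1 : Fin r → C) i' * (p.mul j l m * p.mul i' m n) =
      ∑ m, p.mul j l m * p.mul i m n := by
    rw [Finset.sum_eq_single i]
    · simp
    · intro b _ hb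
      simp [hb]
    · simp
  rw [h2, Finset.sum_congr rfl (fun m _ => h1 m)]
  exact hp.assoc i j l n

lemma mu_assoc {p : Tab C r} (hp : IsAlgR p) (x y z : Fin r → C) :
    mu p (mu p x y) z = mu p x (mu p y z) := by
  have h3 : ∀ i j (z : Fin r → C), mu p (mu p (Pi.single i 1) (Pi.single j 1)) z =
      mu p (Pi.single i 1) (mu p (Pi.single j 1) z) := by
    intro i j z
    have : mu p (mu p (Pi.single i 1) (Pi.single j 1)) =
        (mu p (Pi.single i 1)).comp (mu p (Pi.single j 1)) := by
      apply ext2
      intro l
      exact mu_assoc_basis hp i j l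
    exact congrArg (fun f => f z) this
  have h2 : ∀ i (y z : Fin r → C), mu p (mu p (Pi.single i 1) y) z =
      mu p (Pi.single i 1) (mu p y z) := by
    intro i y z
    have : ((mu p).flip z).comp (mu p (Pi.single i 1)) =
        (mu p (Pi.single i 1)).comp ((mu p).flip z) := by
      apply ext2
      intro j
      exact h3 i j z
    exact congrArg (fun f => f y) this
  have : ((mu p).flip z).comp ((mu p).flip y) = (mu p).flip (mu p y z) := by
    apply ext2
    intro i
    exact h2 i y z
  exact congrArg (fun f => f x) this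

lemma one_mu {p : Tab C r} (hp : IsAlgR p) (x : Fin r → C) : mu p p.one x = x := by
  have : mu p p.one = LinearMap.id := by
    apply ext2
    intro j
    funext l
    rw [mu_apply]
    have h1 : ∀ i, ∑ j', p.one i * ((Pi.single j 1 : Fin r → C) j' * p.mul i j' l) =
        p.one i * p.mul i j l := by
      intro i
      rw [Finset.sum_eq_single j]
      · simp
      · intro b _ hb
        simp [hb]
      · simp
    rw [Finset.sum_congr rfl (fun m _ => h1 m), hp.unit]
    simp [Pi.single_apply, eq_comm]
  exact congrArg (fun f => f x) this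

/-- identities for all vectors give the identities of the table -/
lemma isAlgR_of {p : Tab C r} (h1 : ∀ x y, mu p x y = mu p y x)
    (h2 : ∀ x y z, mu p (mu p x y) z = mu p x (mu p y z)) (h3 : ∀ x, mu p p.one x = x) :
    IsAlgR p := by
  refine ⟨?_, ?_, ?_⟩
  · intro i j l
    rw [← mu_single p i j, h1, mu_single]
  · intro i j l n
    have := congrFun (h2 (Pi.single i 1) (Pi.single j 1) (Pi.single l 1)) n
    rw [mu_single, mu_single, mu_apply, mu_apply] at this
    have e1 : ∀ m, ∑ j', p.mul i j m * ((Pi.single l 1 : Fin r → C) j' * p.mul m j' n) =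
        p.mul i j m * p.mul m l n := by
      intro m
      rw [Finset.sum_eq_single l]
      · simp
      · intro b _ hb
        simp [hb]
      · simp
    have e2 : ∑ i', ∑ m, (Pi.single i 1 : Fin r → C) i' * (p.mul j l m * p.mul i' m n) =
        ∑ m, p.mul j l m * p.mul i m n := by
      rw [Finset.sum_eq_single i]
      · simp
      · intro b _ hb
        simp [hb]
      · simp
    rw [e2, Finset.sum_congr rfl (fun m _ => e1 m)] at this
    exact this
  · intro j l
    have := congrFun (h3 (Pi.single j 1)) l
    rw [mu_apply] at this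
    have e1 : ∀ i, ∑ j', p.one i * ((Pi.single j 1 : Fin r → C) j' * p.mul i j' l) =
        p.one i * p.mul i j l := by
      intro i
      rw [Finset.sum_eq_single j]
      · simp
      · intro b _ hb
        simp [hb]
      · simp
    rw [Finset.sum_congr rfl (fun m _ => e1 m)] at this
    rw [this]
    simp [Pi.single_apply, eq_comm]

/-- transport of a table along an automorphism of `C^r` -/
noncomputable def trans (G G' : Matrix (Fin r) (Fin r) C) (p : Tab C r) : Tab C r where
  mul a b := G.mulVec (mu p (G'.mulVec (Pi.single a 1)) (G'.mulVec (Pi.single b 1)))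
  one := G.mulVec p.one

lemma mu_trans (G G' : Matrix (Fin r) (Fin r) C) (p : Tab C r) (x y : Fin r → C) :
    mu (trans G G' p) x y = G.mulVec (mu p (G'.mulVec x) (G'.mulVec y)) := by
  have : mu (trans G G' p) = (((mu p).compl₁₂ G'.mulVecLin G'.mulVecLin).compr₂
      G.mulVecLin) := by
    apply ext2
    intro i
    apply ext2
    intro j
    rw [mu_single]
    rfl
  rw [this]
  rfl

lemma isAlgR_trans {G G' : Matrix (Fin r) (Fin r) C} (h : G * G' = 1) {p : Tab C r}
    (hp : IsAlgR p) : IsAlgR (trans G G' p) := by
  have h' : G' * G = 1 := mul_eq_one_comm.mp h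
  have e : ∀ x : Fin r → C, G'.mulVec (G.mulVec x) = x := by
    intro x
    rw [Matrix.mulVec_mulVec, h', Matrix.one_mulVec]
  have e' : ∀ x : Fin r → C, G.mulVec (G'.mulVec x) = x := by
    intro x
    rw [Matrix.mulVec_mulVec, h, Matrix.one_mulVec]
  apply isAlgR_of
  · intro x y
    rw [mu_trans, mu_trans, mu_comm hp]
  · intro x y z
    rw [mu_trans, mu_trans, mu_trans, mu_trans, e, e, mu_assoc hp]
  · intro x
    rw [mu_trans]
    show G.mulVec (mu p (G'.mulVec (G.mulVec p.one)) (G'.mulVec x)) = x
    rw [e, one_mu hp, e']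

end

end Helper47.RL
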